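import Mathlib
import Pool.Agent.H297R2.CubeFree

set_option autoImplicit false

/-!
# Polynomial relations with coefficients in a finite dimensional space

If `W` is a finite dimensional space over an algebraically closed field `κ`, every sufficiently
large cube spanned by `κ`-linearly independent elements contains a point which satisfies no
polynomial relation of degree at most `D` with coefficients in `W`.
-/

namespace Pool.Agent.W245

open Finset Polynomial Module Pool.Agent.H297R2

/-- `v` satisfies no nontrivial polynomial relation of degree `≤ D` with coefficients in `W`. -/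
def NoRelOver {κ C : Type*} [CommRing κ] [CommRing C] [Algebra κ C] (W : Submodule κ C) (D : ℕ)
    (v : C) : Prop :=
  ∀ c : Fin (D + 1) → C, (∀ j, c j ∈ W) → ∑ j, c j * v ^ (j : ℕ) = 0 → ∀ j, c j = 0

/-- The index set of the monomials. -/
abbrev Idx (ι : Type*) (D : ℕ) := ι × Fin (D + 1)

theorem monomials_indep' {κ A ι : Type*} [Field κ] [CommRing A] [Algebra κ A] [Fintype ι] (D : ℕ)
    (b : ι → A) (hb : LinearIndependent κ b) (c : Idx ι D → κ)
    (hc : ∑ s, c s • ((X : A[X]) ^ (s.2 : ℕ) * C (b s.1)) = 0) : ∀ s, c s = 0 := by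
  classical
  rintro ⟨i, j⟩
  have h2 := congrArg (fun p => coeff p (j : ℕ)) hc
  simp only [finsetSum_coeff, coeff_zero] at h2
  rw [Fintype.sum_prod_type] at h2
  have h3 : ∀ i' : ι, ∑ j' : Fin (D + 1), (c (i', j') • ((X : A[X]) ^ (j' : ℕ) * C (b i'))).coeff j =
      c (i', j) • b i' := by
    intro i'
    rw [Finset.sum_eq_single j]
    · rw [coeff_smul, mul_comm (X ^ _) (C _), coeff_C_mul_X_pow, if_pos rfl]
    · intro j' _ hj'
      rw [coeff_smul, mul_comm (X ^ _) (C _), coeff_C_mul_X_pow, if_neg, smul_zero]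
      intro h
      exact hj' (Fin.ext h.symm)
    · intro h
      exact absurd (Finset.mem_univ _) h
  simp only [h3] at h2
  exact (Fintype.linearIndependent_iff.1 hb) (fun i' => c (i', j)) h2 i

/-- The evaluation determinant. -/
noncomputable def evalDet' {κ ι : Type*} [Field κ] [Fintype ι] (D : ℕ)
    (u : Idx ι D → ι → κ) (x : Idx ι D → κ) : κ := by
  classical
  exact Matrix.det (Matrix.of fun (s : Idx ι D) (j : Idx ι D) => x j ^ (s.2 : ℕ) * u j s.1)

theorem evalDet'_degLE {κ ι : Type*} [Field κ] [Fintype ι] (D : ℕ)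
    (u : Idx ι D → ι → κ) :
    DegLE (Fintype.card (Idx ι D) * D) (evalDet' D u) := by
  classical
  have : evalDet' D u = fun x => ∑ π : Equiv.Perm (Idx ι D),
      ((Equiv.Perm.sign π : ℤ) : κ) * ∏ j, (x j ^ ((π j).2 : ℕ) * u j (π j).1) := by
    funext x
    unfold evalDet'
    rw [Matrix.det_apply']
    rfl
  rw [this]
  apply DegLE.sum
  intro π _
  apply DegLE.const_mul
  have h := DegLE.prod (univ : Finset (Idx ι D)) D
    (fun j (x : Idx ι D → κ) => x j ^ ((π j).2 : ℕ) * u j (π j).1) (by
      intro j _
      have h1 : DegLE ((π j).2 : ℕ) (fun x : Idx ι D → κ => x j ^ ((π j).2 : ℕ)) :=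
        (DegLE.coord j).pow _
      have h2 : ((π j).2 : ℕ) ≤ D := by have := (π j).2.2; omega
      have h3 := (h1.const_mul (u j (π j).1)).mono h2
      convert h3 using 2
      ring)
  rw [Finset.card_univ] at h
  exact h

theorem evalDet'_linePoly {κ ι : Type*} [Field κ] [Fintype ι] (D : ℕ)
    (u : Idx ι D → ι → κ) : LinePoly (evalDet' D u) := by
  classical
  have : evalDet' D u = fun x => ∑ π : Equiv.Perm (Idx ι D),
      ((Equiv.Perm.sign π : ℤ) : κ) * ∏ j, (x j ^ ((π j).2 : ℕ) * u j (π j).1) := by
    funext x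
    unfold evalDet'
    rw [Matrix.det_apply']
    rfl
  rw [this]
  apply LinePoly.sum
  intro π _
  apply LinePoly.mul (LinePoly.const _)
  apply LinePoly.prod
  intro j _
  exact ((LinePoly.coord j).pow _).mul (LinePoly.const _)

/-- Existence of good evaluation points. -/
theorem exists_eval' {κ C ι : Type*} [Field κ] [IsAlgClosed κ] [Field C] [Algebra κ C] [Fintype ι]
    (D : ℕ) (t : ι → C) (ht : LinearIndependent κ t) {G : Type*} [Fintype G]
    (w : G → Idx ι D → C) (hw : ∀ g, LinearIndependent κ (w g)) (U : Set C) (hU : U.Finite)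
    (htU : ∀ i, t i ∈ U) (hwU : ∀ g i, w g i ∈ U) :
    ∃ τ : Idx ι D → (Algebra.adjoin κ U →ₐ[κ] κ),
      (∃ x₀, evalDet' D (fun j i => τ j ⟨t i, Algebra.subset_adjoin (htU i)⟩) x₀ ≠ 0) ∧
      ∀ g, Submodule.span κ (Set.range (fun i j => τ j ⟨w g i, Algebra.subset_adjoin (hwU g i)⟩)) = ⊤ := by
  classical
  set A := Algebra.adjoin κ U with hA
  have hAfg : Algebra.FiniteType κ A := by
    rw [← Subalgebra.fg_iff_finiteType]
    exact ⟨hU.toFinset, by simp [hA]⟩
  set N := Fintype.card (Idx ι D) with hN
  set tA : ι → A := fun i => ⟨t i, Algebra.subset_adjoin (htU i)⟩ with htA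
  set wA : G → Idx ι D → A := fun g i => ⟨w g i, Algebra.subset_adjoin (hwU g i)⟩ with hwA
  have htA' : LinearIndependent κ tA := by
    rw [Fintype.linearIndependent_iff] at ht ⊢
    intro c hc
    apply ht c
    have h5 := congrArg A.val hc
    rw [map_sum, map_zero] at h5
    rw [← h5]
    apply Finset.sum_congr rfl
    intro s _
    rfl
  -- the families
  set fam : Option G → Idx ι D → A[X] := fun o s =>
    o.elim ((X : A[X]) ^ (s.2 : ℕ) * Polynomial.C (tA s.1))
      (fun g => Polynomial.C (wA g s)) with hfam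
  set W : Option G → Submodule κ A[X] := fun o => Submodule.span κ (Set.range (fam o)) with hW
  have hfin : ∀ o, Module.Finite κ (W o) := fun o =>
    FiniteDimensional.span_of_finite κ (Set.finite_range _)
  obtain ⟨φ, hφ⟩ := exists_points κ A[X] N W (fun o => by
    rw [hW]
    exact finrank_range_le_card (fam o))
  have e : Fin N ≃ Idx ι D := (Fintype.equivFin _).symm
  -- independence of the families tested at the points
  have hkey : ∀ o (c : Idx ι D → κ), (∀ j, ∑ s, c s * φ (e.symm j) (fam o s) = 0) →
      ∑ s, c s • fam o s = 0 := by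
    intro o c hc
    apply hφ o
    · apply Submodule.sum_mem
      intro s _
      exact Submodule.smul_mem _ _ (Submodule.subset_span ⟨s, rfl⟩)
    · intro j
      have := hc (e j)
      rw [Equiv.symm_apply_apply] at this
      rw [map_sum, ← this]
      apply Finset.sum_congr rfl
      intro s _
      rw [map_smul, smul_eq_mul]
  let τ : Idx ι D → (A →ₐ[κ] κ) := fun j => (φ (e.symm j)).comp (Polynomial.CAlgHom)
  refine ⟨τ, ?_, ?_⟩
  · refine ⟨fun j => φ (e.symm j) X, ?_⟩
    intro hdet
    unfold evalDet' at hdet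
    rw [← Matrix.exists_vecMul_eq_zero_iff] at hdet
    obtain ⟨c, hc0, hc⟩ := hdet
    apply hc0
    funext s
    refine monomials_indep' D tA htA' c ?_ s
    apply hkey none c
    intro j
    have h1 := congrFun hc j
    rw [Matrix.vecMul, dotProduct] at h1
    rw [Pi.zero_apply] at h1
    rw [← h1]
    apply Finset.sum_congr rfl
    intro s _
    rw [hfam]
    simp only [Option.elim, map_mul, map_pow, Matrix.of_apply]
    rfl
  · intro g
    have hli : LinearIndependent κ (fun (i : Idx ι D) (j : Idx ι D) => τ j (wA g i)) := by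
      rw [Fintype.linearIndependent_iff]
      intro c hc
      have h1 : ∑ s, c s • fam (some g) s = 0 := by
        apply hkey
        intro j
        have h2 := congrFun hc j
        rw [Finset.sum_apply] at h2
        rw [Pi.zero_apply] at h2
        rw [← h2]
        apply Finset.sum_congr rfl
        intro s _
        rfl
      have h2 : ∑ s, c s • w g s = 0 := by
        have h3 : Polynomial.C (∑ s, c s • wA g s) = (0 : A[X]) := by
          rw [← h1, map_sum]
          apply Finset.sum_congr rfl
          intro s _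
          rw [hfam]
          simp only [Option.elim]
          rw [← Polynomial.smul_C]
        have h4 := Polynomial.C_eq_zero.1 h3
        have h5 := congrArg A.val h4
        rw [map_sum, map_zero] at h5
        rw [← h5]
        apply Finset.sum_congr rfl
        intro s _
        rfl
      exact (Fintype.linearIndependent_iff.1 (hw g)) c h2
    apply hli.span_eq_top_of_card_eq_finrank'
    rw [Module.finrank_fintype_fun_eq_card]

theorem noRelOver_of_evalDet' {κ C ι : Type*} [Field κ] [Field C] [Algebra κ C] [Fintype ι]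
    (D : ℕ) (t : ι → C) (U : Set C) (htU : ∀ i, t i ∈ U)
    (τ : Idx ι D → (Algebra.adjoin κ U →ₐ[κ] κ)) (v : Algebra.adjoin κ U)
    (h : evalDet' D (fun j i => τ j ⟨t i, Algebra.subset_adjoin (htU i)⟩) (fun j => τ j v) ≠ 0) :
    NoRelOver (Submodule.span κ (Set.range t)) D (v : C) := by
  classical
  intro c hcW hc
  have h0 : ∀ j, ∃ a : ι → κ, ∑ i, a i • t i = c j := fun j =>
    (Submodule.mem_span_range_iff_exists_fun κ).1 (hcW j)
  choose a ha using h0
  unfold evalDet' at h
  have h1 : ∑ s : Idx ι D, a s.2 s.1 • (v ^ (s.2 : ℕ) *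
      (⟨t s.1, Algebra.subset_adjoin (htU s.1)⟩ : Algebra.adjoin κ U)) = 0 := by
    apply Subtype.ext
    rw [ZeroMemClass.coe_zero, ← hc]
    push_cast
    rw [Fintype.sum_prod_type_right]
    apply Finset.sum_congr rfl
    intro j _
    rw [← ha j, Finset.sum_mul]
    apply Finset.sum_congr rfl
    intro i _
    rw [smul_mul_assoc, mul_comm]
  have h2 := Matrix.eq_zero_of_vecMul_eq_zero h (v := fun s : Idx ι D => a s.2 s.1) (by
    funext j
    have h3 := congrArg (τ j) h1
    rw [map_sum, map_zero] at h3
    rw [Pi.zero_apply, ← h3, Matrix.vecMul, dotProduct]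
    apply Finset.sum_congr rfl
    intro s _
    simp only [map_smul, map_mul, map_pow, Matrix.of_apply, smul_eq_mul])
  intro j
  rw [← ha j]
  apply Finset.sum_eq_zero
  intro i _
  have := congrFun h2 (i, j)
  simp only [Pi.zero_apply] at this
  rw [this, zero_smul]

/-- **No cube is entirely exceptional**, for a space with a given basis. -/
theorem cube_over_basis (κ C : Type*) [Field κ] [IsAlgClosed κ] [CharZero κ] [Field C] [Algebra κ C]
    (ι : Type*) [Fintype ι] (D : ℕ) : ∃ r : ℕ, ∀ t : ι → C, LinearIndependent κ t → ∀ (v₀ : C)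
    (w : Fin r → C), LinearIndependent κ w →
    ∃ S : Finset (Fin r), NoRelOver (Submodule.span κ (Set.range t)) D (v₀ + ∑ i ∈ S, w i) := by
  classical
  set I := Idx ι D with hI
  set d := Fintype.card I * D with hd
  refine ⟨Fintype.card (Fin d × I), ?_⟩
  intro t ht v₀ w hw
  have e : Fin (Fintype.card (Fin d × I)) ≃ Fin d × I := (Fintype.equivFin _).symm
  set U : Set C := Set.range t ∪ Set.range w ∪ {v₀} with hU
  have hUf : U.Finite := ((Set.finite_range _).union (Set.finite_range _)).union (Set.finite_singleton _)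
  have htU : ∀ i, t i ∈ U := fun i => Or.inl (Or.inl ⟨i, rfl⟩)
  have hwU : ∀ k, w k ∈ U := fun k => Or.inl (Or.inr ⟨k, rfl⟩)
  have hvU : v₀ ∈ U := Or.inr rfl
  obtain ⟨τ, hne, hspan⟩ := exists_eval' D t ht (G := Fin d) (fun g i => w (e.symm (g, i)))
    (fun g => hw.comp _ (fun i j h => by
      have := e.symm.injective h
      exact (Prod.mk.inj this).2)) U hUf htU (fun g i => hwU _)
  set vA : Algebra.adjoin κ U := ⟨v₀, Algebra.subset_adjoin hvU⟩ with hvA
  set wA : Fin (Fintype.card (Fin d × I)) → Algebra.adjoin κ U :=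
    fun k => ⟨w k, Algebra.subset_adjoin (hwU k)⟩ with hwA
  obtain ⟨η, hη⟩ := cube_nonvanish d (evalDet' D (fun j i => τ j ⟨t i, Algebra.subset_adjoin (htU i)⟩))
    (evalDet'_degLE D _) (evalDet'_linePoly D _) hne
    (fun g i j => τ j (wA (e.symm (g, i)))) hspan (fun j => τ j vA)
  refine ⟨univ.filter (fun k => η (e k).1 = some (e k).2), ?_⟩
  set S := univ.filter (fun k => η (e k).1 = some (e k).2) with hS
  have hcoe : v₀ + ∑ i ∈ S, w i = ((vA + ∑ i ∈ S, wA i : Algebra.adjoin κ U) : C) := by
    push_cast
    rfl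
  rw [hcoe]
  apply noRelOver_of_evalDet' D t U htU τ
  convert hη using 2
  funext j
  rw [map_add, Pi.add_apply, map_sum]
  congr 1
  rw [Finset.sum_apply, hS, Finset.sum_filter]
  rw [← e.symm.sum_comp]
  rw [Fintype.sum_prod_type]
  apply Finset.sum_congr rfl
  intro g _
  simp only [Equiv.apply_symm_apply]
  rcases hηg : η g with _ | i₀
  · simp
  · rw [Finset.sum_eq_single i₀]
    · simp
    · intro i _ hi
      rw [if_neg]
      intro h
      exact hi (Option.some.inj h).symm
    · intro h; exact absurd (mem_univ _) h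

theorem NoRelOver.mono {κ C : Type*} [CommRing κ] [CommRing C] [Algebra κ C]
    {W W' : Submodule κ C} (hW : W ≤ W') {D : ℕ} {v : C} (h : NoRelOver W' D v) :
    NoRelOver W D v := fun c hc h0 => h c (fun j => hW (hc j)) h0

/-- **No cube is entirely exceptional**, uniformly in the space of coefficients. -/
theorem cube_over (κ C : Type*) [Field κ] [IsAlgClosed κ] [CharZero κ] [Field C] [Algebra κ C]
    (N D : ℕ) : ∃ r : ℕ, ∀ W : Submodule κ C, Module.Finite κ W → finrank κ W ≤ N → ∀ (v₀ : C)
    (w : Fin r → C), LinearIndependent κ w →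
    ∃ S : Finset (Fin r), NoRelOver W D (v₀ + ∑ i ∈ S, w i) := by
  classical
  choose r hr using fun n : ℕ => cube_over_basis κ C (Fin n) D
  refine ⟨∑ n ∈ Finset.range (N + 1), r n, ?_⟩
  intro W hWf hWN v₀ w hw
  set n := finrank κ W with hn
  have hrn : r n ≤ ∑ n ∈ Finset.range (N + 1), r n :=
    Finset.single_le_sum (f := r) (fun _ _ => Nat.zero_le _) (Finset.mem_range.2 (by omega))
  let b : Basis (Fin n) κ W := Module.finBasis κ W
  have hb : LinearIndependent κ (fun i => (b i : C)) :=
    b.linearIndependent.map' W.subtype (Submodule.ker_subtype W)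
  have hspan : Submodule.span κ (Set.range (fun i => (b i : C))) = W := by
    have h1 : Set.range (fun i => (b i : C)) = W.subtype '' Set.range b := by
      rw [← Set.range_comp]
      rfl
    rw [h1, Submodule.span_image, b.span_eq, Submodule.map_subtype_top]
  obtain ⟨S, hS⟩ := hr n (fun i => (b i : C)) hb v₀ (fun i => w (Fin.castLE hrn i))
    (hw.comp _ (Fin.castLE_injective hrn))
  refine ⟨S.map (Fin.castLEEmb hrn), ?_⟩
  rw [hspan] at hS
  rw [Finset.sum_map]
  exact hS

end Pool.Agent.W245
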