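import Mathlib
import Pool.Agent.W245.CubeOver

set_option autoImplicit false
set_option linter.unusedSectionVars false

/-!
# Extension of spaces with the zero coefficient property
-/

namespace Pool.Agent.W245

open Finset Module Matrix

/-- Every singular square matrix with entries in `V` has a zero coefficient after some rational
change of bases on the left and on the right. -/
def SingularHasZero {C : Type*} [Field C] [CharZero C] (V : Submodule ℚ C) : Prop :=
  ∀ n : ℕ, 1 ≤ n → ∀ M : Matrix (Fin n) (Fin n) C, (∀ i j, M i j ∈ V) → M.det = 0 →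
    ∃ w v : Fin n → ℚ, w ≠ 0 ∧ v ≠ 0 ∧ ∑ i, ∑ j, (w i : C) * M i j * (v j : C) = 0

section General

variable {C : Type*} [Field C] [CharZero C]

set_option linter.unusedSectionVars false

/-- The bilinear form attached to a matrix. -/
def bil {ι : Type*} [Fintype ι] (M : Matrix ι ι C) (w v : ι → ℚ) : C :=
  ∑ i, ∑ j, (w i : C) * M i j * (v j : C)

theorem SingularHasZero.fintype {V : Submodule ℚ C} (hV : SingularHasZero V) (ι : Type*)
    [Fintype ι] [DecidableEq ι] (M : Matrix ι ι C) (hM : ∀ i j, M i j ∈ V) (hdet : M.det = 0) :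
    ∃ w v : ι → ℚ, w ≠ 0 ∧ v ≠ 0 ∧ bil M w v = 0 := by
  classical
  let e : Fin (Fintype.card ι) ≃ ι := (Fintype.equivFin ι).symm
  have hcard : 1 ≤ Fintype.card ι := by
    by_contra h
    have h0 : Fintype.card ι = 0 := by omega
    have : IsEmpty ι := Fintype.card_eq_zero_iff.1 h0
    rw [Matrix.det_isEmpty] at hdet
    exact one_ne_zero hdet
  obtain ⟨w, v, hw, hv, h⟩ := hV (Fintype.card ι) hcard (M.submatrix e e)
    (fun i j => hM _ _) (by rw [Matrix.det_submatrix_equiv_self, hdet])
  refine ⟨w ∘ e.symm, v ∘ e.symm, ?_, ?_, ?_⟩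
  · intro h0
    apply hw
    funext i
    have := congrFun h0 (e i)
    simpa using this
  · intro h0
    apply hv
    funext i
    have := congrFun h0 (e i)
    simpa using this
  · unfold bil
    rw [← h, ← e.sum_comp]
    refine Finset.sum_congr rfl fun i _ => ?_
    rw [← e.sum_comp]
    refine Finset.sum_congr rfl fun j _ => ?_
    simp

theorem bil_add {ι : Type*} [Fintype ι] (M N : Matrix ι ι C) (w v : ι → ℚ) :
    bil (M + N) w v = bil M w v + bil N w v := by
  unfold bil
  rw [← Finset.sum_add_distrib]
  refine Finset.sum_congr rfl fun i _ => ?_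
  rw [← Finset.sum_add_distrib]
  refine Finset.sum_congr rfl fun j _ => ?_
  rw [Matrix.add_apply]
  ring

theorem bil_smul {ι : Type*} [Fintype ι] (x : C) (M : Matrix ι ι C) (w v : ι → ℚ) :
    bil (x • M) w v = x * bil M w v := by
  unfold bil
  rw [Finset.mul_sum]
  refine Finset.sum_congr rfl fun i _ => ?_
  rw [Finset.mul_sum]
  refine Finset.sum_congr rfl fun j _ => ?_
  rw [Matrix.smul_apply, smul_eq_mul]
  ring

theorem bil_eq {ι : Type*} [Fintype ι] (M : Matrix ι ι C) (w v : ι → ℚ) :
    bil M w v = (fun i => (w i : C)) ⬝ᵥ (M *ᵥ (fun i => (v i : C))) := by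
  unfold bil
  simp only [dotProduct, Matrix.mulVec, Finset.mul_sum, mul_assoc]

/-- Change of bases in the bilinear form. -/
theorem bil_conj {ι : Type*} [Fintype ι] (M : Matrix ι ι C) (P Q : Matrix ι ι ℚ) (w v : ι → ℚ) :
    bil M (w ᵥ* P) (Q *ᵥ v) = bil (P.map (fun q : ℚ => (q : C)) * M * Q.map (fun q : ℚ => (q : C))) w v := by
  rw [bil_eq, bil_eq]
  have h1 : (fun i => (((w ᵥ* P) i : ℚ) : C)) = (fun i => (w i : C)) ᵥ* P.map (fun q : ℚ => (q : C)) := by
    funext i
    simp [Matrix.vecMul, dotProduct]
  have h2 : (fun i => (((Q *ᵥ v) i : ℚ) : C)) = Q.map (fun q : ℚ => (q : C)) *ᵥ (fun i => (v i : C)) := by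
    funext i
    simp [Matrix.mulVec, dotProduct]
  rw [h1, h2, Matrix.mul_assoc, ← Matrix.mulVec_mulVec, ← Matrix.mulVec_mulVec,
    ← Matrix.dotProduct_mulVec]

/-- A pencil with identically vanishing determinant, diagonal rational part. -/
theorem pencil_diag {V : Submodule ℚ C} (hV : SingularHasZero V) {n : ℕ}
    (M : Matrix (Fin n) (Fin n) C) (hM : ∀ i j, M i j ∈ V) (d : Fin n → ℚ)
    (hdet : ∀ y : C, (M + y • (diagonal d).map (fun q : ℚ => (q : C))).det = 0) :
    ∃ w v : Fin n → ℚ, w ≠ 0 ∧ v ≠ 0 ∧ bil M w v = 0 ∧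
      bil ((diagonal d).map (fun q : ℚ => (q : C))) w v = 0 := by
  classical
  -- the auxiliary matrix
  set G : Matrix (Fin n) (Fin n) (Polynomial C) := Matrix.of fun i j =>
    if d j = 0 then Polynomial.C (M i j) else
      Polynomial.X * Polynomial.C (M i j) + Polynomial.C ((diagonal d i j : ℚ) : C) with hG
  have hGe : ∀ z : C, (G.det).eval z = (G.map (fun p => p.eval z)).det := by
    intro z
    have := RingHom.map_det (Polynomial.evalRingHom z) G
    simpa using this
  have hroot : ∀ z : C, z ≠ 0 → (G.det).eval z = 0 := by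
    intro z hz
    rw [hGe]
    have h1 : G.map (fun p => p.eval z) = (M + z⁻¹ • (diagonal d).map (fun q : ℚ => (q : C))) *
        diagonal (fun j => if d j = 0 then (1 : C) else z) := by
      ext i j
      rw [Matrix.mul_diagonal]
      simp only [hG, Matrix.map_apply, Matrix.of_apply, Matrix.add_apply, Matrix.smul_apply,
        smul_eq_mul]
      by_cases hj : d j = 0
      · simp only [hj, if_true, mul_one, Polynomial.eval_C]
        have : ((diagonal d i j : ℚ) : C) = 0 := by
          by_cases hij : i = j
          · subst hij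
            rw [Matrix.diagonal_apply_eq, hj]; simp
          · rw [Matrix.diagonal_apply_ne _ hij]; simp
        rw [this, mul_zero, add_zero]
      · simp only [hj, if_false, Polynomial.eval_add, Polynomial.eval_mul, Polynomial.eval_X,
          Polynomial.eval_C]
        field_simp
    rw [h1, Matrix.det_mul, hdet, zero_mul]
  have hzero : G.det = 0 := by
    apply Polynomial.eq_zero_of_infinite_isRoot
    apply Set.Infinite.mono (s := {z : C | z ≠ 0})
    · intro z hz
      exact hroot z hz
    · have : ({z : C | z ≠ 0}) = ({0} : Set C)ᶜ := by ext; simp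
      rw [this]
      exact (Set.finite_singleton _).infinite_compl
  have h0 : (G.map (fun p => p.eval 0)).det = 0 := by
    rw [← hGe, hzero, Polynomial.eval_zero]
  rw [Matrix.twoBlockTriangular_det _ (fun j => d j ≠ 0) (by
    intro i hi j hj
    have hij : i ≠ j := by
      rintro rfl
      exact hi hj
    simp only [hG, Matrix.map_apply, Matrix.of_apply, hj, if_false]
    simp [Matrix.diagonal_apply_ne _ hij])] at h0
  have hD1 : (toSquareBlockProp (G.map (fun p => p.eval 0)) (fun j => d j ≠ 0)).det ≠ 0 := by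
    have h2 : toSquareBlockProp (G.map (fun p => p.eval 0)) (fun j => d j ≠ 0) =
        diagonal (fun j : {j // d j ≠ 0} => ((d j : ℚ) : C)) := by
      ext i j
      rw [Matrix.toSquareBlockProp_def, Matrix.of_apply]
      simp only [hG, Matrix.map_apply, Matrix.of_apply, j.2, if_false]
      by_cases hij : i = j
      · subst hij
        simp
      · rw [Matrix.diagonal_apply_ne _ hij, Matrix.diagonal_apply_ne _ (fun h => hij (Subtype.ext h))]
        simp
    rw [h2, Matrix.det_diagonal, Finset.prod_ne_zero_iff]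
    intro j _
    exact_mod_cast j.2
  have hD2 := (mul_eq_zero.1 h0).resolve_left hD1
  obtain ⟨w, v, hw, hv, hwv⟩ := hV.fintype _ _ (by
    intro i j
    have hj : d (j : Fin n) = 0 := not_not.1 j.2
    rw [Matrix.toSquareBlockProp_def, Matrix.of_apply]
    simp only [hG, Matrix.map_apply, Matrix.of_apply, hj, if_true, Polynomial.eval_C]
    exact hM _ _) hD2
  set w' : Fin n → ℚ := fun i => if h : ¬ d i ≠ 0 then w ⟨i, h⟩ else 0 with hw'
  set v' : Fin n → ℚ := fun i => if h : ¬ d i ≠ 0 then v ⟨i, h⟩ else 0 with hv'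
  have hw1 : ∀ i : {i // ¬ d i ≠ 0}, w' i = w i := by
    intro i
    simp only [hw']
    rw [dif_pos i.2]
  have hv1 : ∀ i : {i // ¬ d i ≠ 0}, v' i = v i := by
    intro i
    simp only [hv']
    rw [dif_pos i.2]
  have hw2 : ∀ i : {i // d i ≠ 0}, w' i = 0 := by
    intro i
    simp only [hw']
    rw [dif_neg (not_not.2 i.2)]
  have hv2 : ∀ i : {i // d i ≠ 0}, v' i = 0 := by
    intro i
    simp only [hv']
    rw [dif_neg (not_not.2 i.2)]
  refine ⟨w', v', ?_, ?_, ?_, ?_⟩
  · intro h
    apply hw
    funext i
    rw [← hw1 i, h]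
    rfl
  · intro h
    apply hv
    funext i
    rw [← hv1 i, h]
    rfl
  · unfold bil at hwv ⊢
    rw [← Fintype.sum_subtype_add_sum_subtype (fun i => d i ≠ 0)]
    have e1 : ∑ i : {i // d i ≠ 0}, ∑ j, (w' i : C) * M i j * (v' j : C) = 0 := by
      apply Finset.sum_eq_zero
      intro i _
      apply Finset.sum_eq_zero
      intro j _
      rw [hw2 i]; simp
    rw [e1, zero_add, ← hwv]
    refine Finset.sum_congr rfl fun i _ => ?_
    rw [← Fintype.sum_subtype_add_sum_subtype (fun i => d i ≠ 0)]
    have e2 : ∑ j : {i // d i ≠ 0}, (w' i : C) * M i j * (v' j : C) = 0 := by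
      apply Finset.sum_eq_zero
      intro j _
      rw [hv2 j]; simp
    rw [e2, zero_add]
    refine Finset.sum_congr rfl fun j _ => ?_
    have hj : d (j : Fin n) = 0 := not_not.1 j.2
    rw [hw1, hv1, Matrix.toSquareBlockProp_def, Matrix.of_apply]
    simp only [hG, Matrix.map_apply, Matrix.of_apply, hj, if_true, Polynomial.eval_C]
  · unfold bil
    apply Finset.sum_eq_zero
    intro i _
    apply Finset.sum_eq_zero
    intro j _
    by_cases hij : i = j
    · subst hij
      by_cases hi : d i = 0
      · simp [hi]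
      · have : w' i = 0 := hw2 ⟨i, hi⟩
        simp [this]
    · rw [Matrix.map_apply, Matrix.diagonal_apply_ne _ hij]
      simp

/-- A pencil with identically vanishing determinant. -/
theorem pencil_general {V : Submodule ℚ C} (hV : SingularHasZero V) {n : ℕ}
    (M : Matrix (Fin n) (Fin n) C) (hM : ∀ i j, M i j ∈ V) (N : Matrix (Fin n) (Fin n) ℚ)
    (hdet : ∀ y : C, (M + y • N.map (fun q : ℚ => (q : C))).det = 0) :
    ∃ w v : Fin n → ℚ, w ≠ 0 ∧ v ≠ 0 ∧ bil M w v = 0 ∧
      bil (N.map (fun q : ℚ => (q : C))) w v = 0 := by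
  classical
  obtain ⟨L, L', d, hd⟩ := Matrix.Pivot.exists_list_transvec_mul_mul_list_transvec_eq_diagonal N
  set P : Matrix (Fin n) (Fin n) ℚ := (L.map Matrix.TransvectionStruct.toMatrix).prod with hP
  set Q : Matrix (Fin n) (Fin n) ℚ := (L'.map Matrix.TransvectionStruct.toMatrix).prod with hQ
  have hPdet : P.det = 1 := Matrix.TransvectionStruct.det_toMatrix_prod L
  have hQdet : Q.det = 1 := Matrix.TransvectionStruct.det_toMatrix_prod L'
  have hmul : ∀ A B : Matrix (Fin n) (Fin n) ℚ, (A * B).map (fun q : ℚ => (q : C)) =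
      A.map (fun q : ℚ => (q : C)) * B.map (fun q : ℚ => (q : C)) := by
    intro A B
    exact Matrix.map_mul (f := (Rat.castHom C))
  have hPM : ∀ i j, (P.map (fun q : ℚ => (q : C)) * M * Q.map (fun q : ℚ => (q : C))) i j ∈ V := by
    intro i j
    rw [Matrix.mul_apply]
    apply Submodule.sum_mem
    intro k _
    rw [Matrix.mul_apply, Finset.sum_mul]
    apply Submodule.sum_mem
    intro l _
    have : P.map (fun q : ℚ => (q : C)) i l * M l k * Q.map (fun q : ℚ => (q : C)) k j =
        (P i l * Q k j) • M l k := by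
      rw [Rat.smul_def]
      simp only [Matrix.map_apply]
      push_cast
      ring
    rw [this]
    exact Submodule.smul_mem _ _ (hM _ _)
  obtain ⟨w, v, hw, hv, h1, h2⟩ := pencil_diag hV _ hPM d (by
    intro y
    have h3 : P.map (fun q : ℚ => (q : C)) * M * Q.map (fun q : ℚ => (q : C)) +
        y • (diagonal d).map (fun q : ℚ => (q : C)) =
        P.map (fun q : ℚ => (q : C)) * (M + y • N.map (fun q : ℚ => (q : C))) *
          Q.map (fun q : ℚ => (q : C)) := by
      rw [← hd, hmul, hmul, Matrix.mul_add, Matrix.add_mul, Matrix.mul_smul, Matrix.smul_mul]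
    rw [h3, Matrix.det_mul, Matrix.det_mul, hdet, mul_zero, zero_mul])
  refine ⟨w ᵥ* P, Q *ᵥ v, ?_, ?_, ?_, ?_⟩
  · intro h
    exact hw (Matrix.eq_zero_of_vecMul_eq_zero (by rw [hPdet]; exact one_ne_zero) h)
  · intro h
    exact hv (Matrix.eq_zero_of_mulVec_eq_zero (by rw [hQdet]; exact one_ne_zero) h)
  · rw [bil_conj, h1]
  · rw [bil_conj, ← hmul, ← hmul, hd, h2]

/-- If the matrix is larger than the dimension of the space there is nothing to prove. -/
theorem large_space (V : Submodule ℚ C) [Module.Finite ℚ V] {n : ℕ} (hn : finrank ℚ V < n)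
    (M : Matrix (Fin n) (Fin n) C) (hM : ∀ i j, M i j ∈ V) :
    ∃ w v : Fin n → ℚ, w ≠ 0 ∧ v ≠ 0 ∧ bil M w v = 0 := by
  classical
  have hn0 : 0 < n := by omega
  let j0 : Fin n := ⟨0, hn0⟩
  -- the linear map `w ↦ wᵗ M e₀`
  let T : (Fin n → ℚ) →ₗ[ℚ] V :=
    { toFun := fun w => ⟨∑ i, w i • M i j0, Submodule.sum_mem _ (fun i _ =>
        Submodule.smul_mem _ _ (hM i j0))⟩
      map_add' := by
        intro a b
        apply Subtype.ext
        simp [add_smul, Finset.sum_add_distrib]
      map_smul' := by
        intro a b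
        apply Subtype.ext
        simp [mul_smul, Finset.smul_sum] }
  have hker : LinearMap.ker T ≠ ⊥ := by
    intro h
    have h1 := LinearMap.finrank_le_finrank_of_injective (LinearMap.ker_eq_bot.1 h)
    rw [Module.finrank_fintype_fun_eq_card, Fintype.card_fin] at h1
    omega
  obtain ⟨w, hw, hw0⟩ := (Submodule.ne_bot_iff _).1 hker
  refine ⟨w, Pi.single j0 1, hw0, ?_, ?_⟩
  · intro h
    have := congrFun h j0
    simp at this
  · have h1 : ∑ i, w i • M i j0 = 0 := congrArg Subtype.val (LinearMap.mem_ker.1 hw)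
    rw [← h1]
    unfold bil
    refine Finset.sum_congr rfl fun i _ => ?_
    rw [Finset.sum_eq_single j0]
    · rw [Rat.smul_def]
      simp
    · intro j _ hj
      simp [hj]
    · intro h
      exact absurd (Finset.mem_univ _) h

end General

section Ext

variable {κ C : Type*} [Field κ] [CharZero κ] [Field C] [CharZero C] [Algebra κ C]

/-- The space generated by `1` and `V` over the larger field. -/
def affSpan (κ : Type*) {C : Type*} [Field κ] [Field C] [CharZero C] [Algebra κ C]
    (V : Submodule ℚ C) : Submodule κ C :=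
  Submodule.span κ (insert 1 (V : Set C))

omit [CharZero κ] in
theorem one_mem_affSpan (V : Submodule ℚ C) : (1 : C) ∈ affSpan κ V :=
  Submodule.subset_span (Set.mem_insert _ _)

omit [CharZero κ] in
theorem mem_affSpan (V : Submodule ℚ C) {x : C} (hx : x ∈ V) : x ∈ affSpan κ V :=
  Submodule.subset_span (Set.mem_insert_of_mem _ hx)

theorem ratCast_mem_affSpan (V : Submodule ℚ C) (q : ℚ) : (q : C) ∈ affSpan κ V := by
  have : (q : C) = (q : κ) • (1 : C) := by
    rw [Algebra.smul_def, mul_one, map_ratCast]
  rw [this]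
  exact Submodule.smul_mem _ _ (one_mem_affSpan V)

/-- A finite family generating the larger space. -/
theorem affSpan_eq (V : Submodule ℚ C) [Module.Finite ℚ V] :
    affSpan κ V = Submodule.span κ (Set.range
      (fun o : Option (Fin (finrank ℚ V)) => o.elim (1 : C) (fun i => (Module.finBasis ℚ V i : C)))) := by
  apply le_antisymm
  · rw [affSpan, Submodule.span_le]
    rintro x (rfl | hx)
    · exact Submodule.subset_span ⟨none, rfl⟩
    · have h1 := (Module.finBasis ℚ V).sum_repr ⟨x, hx⟩
      have h2 : ∑ i, ((Module.finBasis ℚ V).repr ⟨x, hx⟩ i) • (Module.finBasis ℚ V i : C) = x := by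
        have := congrArg V.subtype h1
        rw [map_sum] at this
        exact this
      rw [← h2]
      apply Submodule.sum_mem
      intro i _
      have h3 : ((Module.finBasis ℚ V).repr ⟨x, hx⟩ i) • (Module.finBasis ℚ V i : C) =
          (((Module.finBasis ℚ V).repr ⟨x, hx⟩ i : ℚ) : κ) • (Module.finBasis ℚ V i : C) := by
        rw [Rat.smul_def, Algebra.smul_def, map_ratCast]
      rw [h3]
      exact Submodule.smul_mem _ _ (Submodule.subset_span ⟨some i, rfl⟩)
  · rw [Submodule.span_le]
    rintro _ ⟨o, rfl⟩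
    rcases o with _ | i
    · exact one_mem_affSpan V
    · exact mem_affSpan V (Module.finBasis ℚ V i).2

theorem affSpan_finite (V : Submodule ℚ C) [Module.Finite ℚ V] :
    Module.Finite κ (affSpan κ V) := by
  rw [affSpan_eq]
  exact FiniteDimensional.span_of_finite κ (Set.finite_range _)

theorem finrank_affSpan_le (V : Submodule ℚ C) [Module.Finite ℚ V] :
    finrank κ (affSpan κ V) ≤ finrank ℚ V + 1 := by
  rw [affSpan_eq]
  refine (finrank_range_le_card _).trans ?_
  simp

omit [CharZero κ] [CharZero C] in
theorem finrank_pow_le (E : Submodule κ C) [Module.Finite κ E] (m : ℕ) (hm : finrank κ E ≤ m)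
    (k : ℕ) : Module.Finite κ (E ^ k : Submodule κ C) ∧ finrank κ (E ^ k : Submodule κ C) ≤ m ^ k := by
  induction k with
  | zero =>
    rw [pow_zero, Submodule.one_eq_range]
    constructor
    · infer_instance
    · refine (LinearMap.finrank_range_le _).trans ?_
      simp
  | succ k ih =>
    obtain ⟨h1, h2⟩ := ih
    rw [pow_succ, ← Submodule.mulMap_range]
    constructor
    · infer_instance
    · refine (LinearMap.finrank_range_le _).trans ?_
      rw [Module.finrank_tensorProduct, pow_succ]
      exact Nat.mul_le_mul h2 hm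

/-- All the coefficients of a polynomial lie in a given power. -/
def CoeffIn (E : Submodule κ C) (k : ℕ) (f : Polynomial C) : Prop :=
  ∀ j, f.coeff j ∈ E ^ k

omit [CharZero κ] [CharZero C] in
theorem CoeffIn.mul {E : Submodule κ C} {k l : ℕ} {f g : Polynomial C} (hf : CoeffIn E k f)
    (hg : CoeffIn E l g) : CoeffIn E (k + l) (f * g) := by
  intro j
  rw [Polynomial.coeff_mul, pow_add]
  apply Submodule.sum_mem
  intro p _
  exact Submodule.mul_mem_mul (hf _) (hg _)

omit [CharZero κ] [CharZero C] in
theorem CoeffIn.prod {E : Submodule κ C} {ι : Type*} (s : Finset ι) (f : ι → Polynomial C)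
    (hf : ∀ i ∈ s, CoeffIn E 1 (f i)) : CoeffIn E s.card (∏ i ∈ s, f i) := by
  classical
  induction s using Finset.induction_on with
  | empty =>
    intro j
    rw [Finset.card_empty, Finset.prod_empty, pow_zero, Polynomial.coeff_one]
    split_ifs
    · exact Submodule.one_le.1 le_rfl
    · exact Submodule.zero_mem _
  | insert a s ha ih =>
    rw [Finset.card_insert_of_notMem ha, Finset.prod_insert ha, add_comm]
    exact (hf a (Finset.mem_insert_self _ _)).mul
      (ih (fun i hi => hf i (Finset.mem_insert_of_mem hi)))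

omit [CharZero κ] [CharZero C] in
theorem CoeffIn.mono {E : Submodule κ C} (hE : (1 : C) ∈ E) {k l : ℕ} (hkl : k ≤ l)
    {f : Polynomial C} (hf : CoeffIn E k f) : CoeffIn E l f := by
  intro j
  exact pow_le_pow_right' (Submodule.one_le.2 hE) hkl (hf j)

/-- The determinant of a pencil. -/
theorem coeffIn_det (V : Submodule ℚ C) {n : ℕ} (M : Matrix (Fin n) (Fin n) C)
    (hM : ∀ i j, M i j ∈ V) (N : Matrix (Fin n) (Fin n) ℚ) :
    CoeffIn (affSpan κ V) n (Matrix.det (Matrix.of fun i j : Fin n =>
      Polynomial.C (M i j) + Polynomial.X * Polynomial.C ((N i j : ℚ) : C))) := by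
  intro k
  rw [Matrix.det_apply, Polynomial.finsetSum_coeff]
  apply Submodule.sum_mem
  intro τ _
  have h1 : CoeffIn (affSpan κ V) n (∏ i, (Matrix.of fun i j : Fin n =>
      Polynomial.C (M i j) + Polynomial.X * Polynomial.C ((N i j : ℚ) : C)) (τ i) i) := by
    have := CoeffIn.prod (E := affSpan κ V) (univ : Finset (Fin n)) (fun i => (Matrix.of fun i j : Fin n =>
      Polynomial.C (M i j) + Polynomial.X * Polynomial.C ((N i j : ℚ) : C)) (τ i) i) (by
        intro i _ j
        simp only [Matrix.of_apply, pow_one, Polynomial.coeff_add]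
        apply Submodule.add_mem
        · rw [Polynomial.coeff_C]
          split_ifs
          · exact mem_affSpan V (hM _ _)
          · exact Submodule.zero_mem _
        · rw [mul_comm, Polynomial.coeff_C_mul, Polynomial.coeff_X]
          split_ifs
          · rw [mul_one]; exact ratCast_mem_affSpan V _
          · rw [mul_zero]; exact Submodule.zero_mem _)
    rwa [Finset.card_univ, Fintype.card_fin] at this
  rcases Int.units_eq_one_or (Equiv.Perm.sign τ) with h | h
  · rw [h, one_smul]; exact h1 k
  · rw [h, Units.neg_smul, one_smul, Polynomial.coeff_neg]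
    exact Submodule.neg_mem _ (h1 k)

omit [CharZero C] in
theorem natDegree_det_pencil {n : ℕ} (M N : Matrix (Fin n) (Fin n) C) :
    (Matrix.det (Matrix.of fun i j : Fin n =>
      Polynomial.C (M i j) + Polynomial.X * Polynomial.C (N i j))).natDegree ≤ n := by
  rw [Matrix.det_apply]
  apply Polynomial.natDegree_sum_le_of_forall_le
  intro τ _
  have h1 : (∏ i, (Matrix.of fun i j : Fin n =>
      Polynomial.C (M i j) + Polynomial.X * Polynomial.C (N i j)) (τ i) i).natDegree ≤ n := by
    refine (Polynomial.natDegree_prod_le _ _).trans ?_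
    refine (Finset.sum_le_card_nsmul _ _ 1 ?_).trans ?_
    · intro i _
      simp only [Matrix.of_apply]
      refine (Polynomial.natDegree_add_le _ _).trans ?_
      rw [Polynomial.natDegree_C]
      refine max_le (Nat.zero_le _) ?_
      refine (Polynomial.natDegree_mul_le).trans ?_
      rw [Polynomial.natDegree_C, add_zero]
      exact Polynomial.natDegree_X_le
    · simp
  rcases Int.units_eq_one_or (Equiv.Perm.sign τ) with h | h
  · rw [h, one_smul]; exact h1
  · rw [h, Units.neg_smul, one_smul, Polynomial.natDegree_neg]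
    exact h1

/-- **Extension theorem.** Adjoining an element which satisfies no relation over polynomials in the
elements of `V` preserves the zero coefficient property. -/
theorem extend (V : Submodule ℚ C) [Module.Finite ℚ V] (hV : SingularHasZero V) (x : C)
    (hx : NoRelOver (affSpan κ V ^ (finrank ℚ V + 1)) (finrank ℚ V + 1) x) :
    SingularHasZero (V ⊔ Submodule.span ℚ {x}) := by
  classical
  intro n hn M hM hdet
  rcases lt_or_ge (finrank ℚ V + 1) n with hlt | hge
  · have h1 : finrank ℚ (V ⊔ Submodule.span ℚ {x} : Submodule ℚ C) < n := by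
      refine lt_of_le_of_lt (Submodule.finrank_add_le_finrank_add_finrank _ _) ?_
      refine lt_of_le_of_lt (Nat.add_le_add_left (finrank_span_le_card _) _) ?_
      simpa using hlt
    exact large_space _ h1 M hM
  · have h1 : ∀ i j, ∃ a : C, ∃ b : ℚ, a ∈ V ∧ M i j = a + x * (b : C) := by
      intro i j
      obtain ⟨a, ha, c, hc, hac⟩ := Submodule.mem_sup.1 (hM i j)
      obtain ⟨b, rfl⟩ := Submodule.mem_span_singleton.1 hc
      refine ⟨a, b, ha, ?_⟩
      rw [← hac, Rat.smul_def, mul_comm]
    choose A B hA hAB using h1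
    set p : Polynomial C := Matrix.det (Matrix.of fun i j : Fin n =>
      Polynomial.C (A i j) + Polynomial.X * Polynomial.C ((B i j : ℚ) : C)) with hp
    have heval : ∀ y : C, p.eval y = (Matrix.of A + y • (Matrix.of B).map (fun q : ℚ => (q : C))).det := by
      intro y
      have := RingHom.map_det (Polynomial.evalRingHom y) (Matrix.of fun i j : Fin n =>
        Polynomial.C (A i j) + Polynomial.X * Polynomial.C ((B i j : ℚ) : C))
      rw [Polynomial.coe_evalRingHom] at this
      rw [hp, this]
      congr 1
      ext i j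
      simp only [Matrix.of_apply, Matrix.add_apply, Matrix.smul_apply, Matrix.map_apply, RingHom.mapMatrix_apply, Polynomial.coe_evalRingHom, Polynomial.eval_add, Polynomial.eval_mul, Polynomial.eval_C, Polynomial.eval_X, smul_eq_mul]
    have hdeg : p.natDegree ≤ n := natDegree_det_pencil (Matrix.of A) ((Matrix.of B).map (fun q : ℚ => (q : C)))
    have hcoef : CoeffIn (affSpan κ V) (finrank ℚ V + 1) p :=
      (coeffIn_det V (Matrix.of A) hA (Matrix.of B)).mono (one_mem_affSpan V) hge
    have hpx : p.eval x = 0 := by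
      rw [heval, ← hdet]
      congr 1
      ext i j
      rw [hAB i j]
      rfl
    have hp0 : p = 0 := by
      have h2 := hx (fun j => p.coeff j) (fun j => hcoef j) (by
        rw [← hpx, Polynomial.eval_eq_sum_range' (n := finrank ℚ V + 1 + 1) (by omega),
          Finset.sum_range])
      ext j
      rw [Polynomial.coeff_zero]
      by_cases hj : j < finrank ℚ V + 1 + 1
      · exact h2 ⟨j, hj⟩
      · exact Polynomial.coeff_eq_zero_of_natDegree_lt (by omega)
    obtain ⟨w, v, hw, hv, h2, h3⟩ := pencil_general hV (Matrix.of A) hA (Matrix.of B) (by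
      intro y
      rw [← heval, hp0, Polynomial.eval_zero])
    refine ⟨w, v, hw, hv, ?_⟩
    have h4 : M = Matrix.of A + x • (Matrix.of B).map (fun q : ℚ => (q : C)) := by
      ext i j
      rw [hAB i j]
      rfl
    change bil M w v = 0
    rw [h4, bil_add, bil_smul, h2, h3, mul_zero, add_zero]

end Ext

end Pool.Agent.W245
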