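import Mathlib
import Pool.Agent.W245.Extend
import Pool.Agent.H297R2.Density
import Pool.Agent.H297R2.Tuples

set_option autoImplicit false

/-!
# Almost all integers extend a space with the zero coefficient property
-/

namespace Pool.Agent.W245

open Finset Module Complex Pool.Agent.H297R2

/-- The one-variable density theorem over a finite dimensional space of coefficients. -/
theorem density_over (N D : ℕ) (ε : ℝ) (hε : 0 < ε) : ∃ x₀ : ℕ, ∀ x ≥ x₀,
    ∀ W : Submodule (algebraicClosure ℚ ℂ) ℂ, Module.Finite (algebraicClosure ℚ ℂ) W →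
    finrank (algebraicClosure ℚ ℂ) W ≤ N → ∀ A : Finset ℕ, A ⊆ Ioc 0 x →
    (∀ n ∈ A, ¬ NoRelOver W D (Real.log n : ℂ)) → (A.card : ℝ) ≤ ε * x := by
  classical
  have hac : IsAlgClosed (algebraicClosure ℚ ℂ) := (algebraicClosure.isAlgClosure ℚ ℂ).isAlgClosed
  obtain ⟨r, hr⟩ := cube_over (algebraicClosure ℚ ℂ) ℂ N D
  obtain ⟨x₀, hx₀⟩ := dense_cube r ε hε 0
  refine ⟨x₀, fun x hx W hWf hWN A hA hbad => ?_⟩
  by_contra hcon
  push Not at hcon
  obtain ⟨a, p, q, ha, hp, hq, hinj, hcube⟩ := hx₀ x hx A hA hcon.le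
  -- the family of prime logarithms
  set P : Fin r ⊕ Fin r → ℕ := Sum.elim p q with hPdef
  have hPprime : ∀ i, (P i).Prime := by
    rintro (i | i)
    · exact (hp i).1
    · exact (hq i).1
  have hli := linearIndependent_log_prime P hPprime hinj
  set w : Fin r → ℂ := fun i => (Real.log (q i) : ℂ) - (Real.log (p i) : ℂ) with hw
  have hwli : LinearIndependent (algebraicClosure ℚ ℂ) w := by
    rw [Fintype.linearIndependent_iff]
    intro c hc
    have h1 := baker (fun i => (Real.log (P i) : ℂ)) (by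
      intro i
      rw [← Complex.ofReal_exp, Real.exp_log (by exact_mod_cast (hPprime i).pos)]
      rw [Complex.ofReal_natCast]
      exact isAlgebraic_natCast _) hli (Sum.elim (fun i => -(c i : ℂ)) (fun i => (c i : ℂ))) (by
      rintro (i | i)
      · exact ((mem_algebraicClosure_iff).1 (c i).2).neg
      · exact (mem_algebraicClosure_iff).1 (c i).2) (by
      rw [Fintype.sum_sum_type, ← hc, ← Finset.sum_add_distrib]
      apply Finset.sum_congr rfl
      intro i _
      simp only [Sum.elim_inl, Sum.elim_inr, hw, hPdef]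
      rw [Algebra.smul_def]
      change _ = (c i : ℂ) * _
      ring)
    intro i
    have h2 := h1 (Sum.inr i)
    simp only [Sum.elim_inr] at h2
    exact_mod_cast h2
  obtain ⟨S, hS⟩ := hr W hWf hWN (Real.log ((a * ∏ i, p i : ℕ) : ℝ) : ℂ) w hwli
  apply hbad _ (hcube S)
  have hap : (0 : ℝ) < a := by exact_mod_cast ha
  have hpp : ∀ i, (0 : ℝ) < p i := fun i => by exact_mod_cast (hp i).1.pos
  have hqp : ∀ i, (0 : ℝ) < q i := fun i => by exact_mod_cast (hq i).1.pos
  have key : Real.log ((a * ∏ i, (if i ∈ S then q i else p i) : ℕ) : ℝ) =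
      Real.log ((a * ∏ i, p i : ℕ) : ℝ) + ∑ i ∈ S, (Real.log (q i) - Real.log (p i)) := by
    push_cast
    rw [Real.log_mul hap.ne' (Finset.prod_ne_zero_iff.2 (fun i _ => by
      split_ifs
      · exact (hqp i).ne'
      · exact (hpp i).ne')),
      Real.log_mul hap.ne' (Finset.prod_ne_zero_iff.2 (fun i _ => (hpp i).ne')),
      Real.log_prod (fun i _ => by
        split_ifs
        · exact (hqp i).ne'
        · exact (hpp i).ne'), Real.log_prod (fun i _ => (hpp i).ne'), add_assoc]
    congr 1
    rw [← Finset.sum_filter_add_sum_filter_not univ (fun i => i ∈ S)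
      (fun i => Real.log (if i ∈ S then (q i : ℝ) else (p i : ℝ))),
      ← Finset.sum_filter_add_sum_filter_not univ (fun i => i ∈ S) (fun i => Real.log (p i : ℝ))]
    have e1 : univ.filter (fun i => i ∈ S) = S := by ext i; simp
    rw [e1]
    have e2 : ∑ i ∈ S, Real.log (if i ∈ S then (q i : ℝ) else (p i : ℝ)) = ∑ i ∈ S, Real.log (q i : ℝ) := by
      apply Finset.sum_congr rfl
      intro i hi
      rw [if_pos hi]
    have e3 : ∑ i ∈ univ.filter (fun i => i ∉ S), Real.log (if i ∈ S then (q i : ℝ) else (p i : ℝ)) =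
        ∑ i ∈ univ.filter (fun i => i ∉ S), Real.log (p i : ℝ) := by
      apply Finset.sum_congr rfl
      intro i hi
      rw [Finset.mem_filter] at hi
      rw [if_neg hi.2]
    rw [e2, e3, Finset.sum_sub_distrib]
    ring
  have key2 : (Real.log ((a * ∏ i, (if i ∈ S then q i else p i) : ℕ) : ℝ) : ℂ) =
      (Real.log ((a * ∏ i, p i : ℕ) : ℝ) : ℂ) + ∑ i ∈ S, w i := by
    rw [key, hw]
    push_cast
    rfl
  rw [key2]
  exact hS

theorem not_mem_of_noRelOver {V : Submodule ℚ ℂ} {d : ℕ} {x : ℂ}
    (hx : NoRelOver (affSpan (algebraicClosure ℚ ℂ) V ^ (d + 1)) (d + 1) x) : x ∉ V := by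
  intro hxV
  have hle : affSpan (algebraicClosure ℚ ℂ) V ≤ affSpan (algebraicClosure ℚ ℂ) V ^ (d + 1) := by
    conv_lhs => rw [← pow_one (affSpan (algebraicClosure ℚ ℂ) V)]
    exact pow_le_pow_right' (Submodule.one_le.2 (one_mem_affSpan V)) (by omega)
  have h1 := hx (fun j => if j = 0 then -x else if j = 1 then 1 else 0) (by
    intro j
    split_ifs
    · exact Submodule.neg_mem _ (hle (mem_affSpan V hxV))
    · exact hle (one_mem_affSpan V)
    · exact Submodule.zero_mem _) (by
    rw [Fin.sum_univ_succ, Fin.sum_univ_succ]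
    have h2 : ∀ j : Fin d, (Fin.succ (Fin.succ j) : Fin (d + 1 + 1)) ≠ 0 := fun j => Fin.succ_ne_zero _
    have h3 : ∀ j : Fin d, (Fin.succ (Fin.succ j) : Fin (d + 1 + 1)) ≠ 1 := by
      intro j h
      rw [← Fin.succ_zero_eq_one] at h
      exact Fin.succ_ne_zero _ (Fin.succ_injective _ h)
    simp [h3]) 1
  have h4 : (1 : Fin (d + 1 + 1)) ≠ 0 := by
    intro h
    exact absurd (congrArg Fin.val h) (by simp)
  simp only [h4, if_false, if_true] at h1
  exact one_ne_zero h1

theorem finrank_sup_span_singleton {V : Submodule ℚ ℂ} [Module.Finite ℚ V] {x : ℂ} (hx : x ∉ V) :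
    finrank ℚ (V ⊔ Submodule.span ℚ {x} : Submodule ℚ ℂ) = finrank ℚ V + 1 := by
  have hx0 : x ≠ 0 := by
    rintro rfl
    exact hx V.zero_mem
  have h1 : V ⊓ Submodule.span ℚ {x} = ⊥ := by
    rw [← disjoint_iff]
    exact (Submodule.disjoint_span_singleton' hx0).2 hx
  have h2 := Submodule.finrank_sup_add_finrank_inf_eq V (Submodule.span ℚ {x})
  rw [h1, finrank_bot, add_zero, finrank_span_singleton hx0] at h2
  exact h2

/-- The good tuples. -/
def Good (V : Submodule ℚ ℂ) {k : ℕ} (a : Fin k → ℕ) : Prop :=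
  SingularHasZero (V ⊔ Submodule.span ℚ (Set.range fun i => (Real.log (a i) : ℂ))) ∧
  finrank ℚ (V ⊔ Submodule.span ℚ (Set.range fun i => (Real.log (a i) : ℂ)) : Submodule ℚ ℂ) =
    finrank ℚ V + k

theorem good_cons {V : Submodule ℚ ℂ} [Module.Finite ℚ V] {k : ℕ}
    (b : ℕ) (a : Fin k → ℕ)
    (hb : NoRelOver (affSpan (algebraicClosure ℚ ℂ) V ^ (finrank ℚ V + 1)) (finrank ℚ V + 1)
        (Real.log b : ℂ))
    (ha : Good (V ⊔ Submodule.span ℚ {(Real.log b : ℂ)}) a) :
    Good V (Fin.cons b a : Fin (k + 1) → ℕ) := by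
  have h1 : V ⊔ Submodule.span ℚ (Set.range fun i => (Real.log ((Fin.cons b a : Fin (k + 1) → ℕ) i) : ℂ)) =
      V ⊔ Submodule.span ℚ {(Real.log b : ℂ)} ⊔
        Submodule.span ℚ (Set.range fun i => (Real.log (a i) : ℂ)) := by
    rw [sup_assoc, ← Submodule.span_union]
    congr 2
    ext z
    constructor
    · rintro ⟨i, rfl⟩
      refine Fin.cases ?_ (fun j => ?_) i
      · left; simp
      · right; exact ⟨j, by simp⟩
    · rintro (h | ⟨j, rfl⟩)
      · exact ⟨0, by simpa using h.symm⟩
      · exact ⟨j.succ, by simp⟩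
  unfold Good
  rw [h1]
  refine ⟨ha.1, ?_⟩
  rw [ha.2, finrank_sup_span_singleton (not_mem_of_noRelOver hb)]
  ring

open Classical in
/-- One more logarithm. -/
theorem density_ext_one (m : ℕ) (ε : ℝ) (hε : 0 < ε) : ∃ x₀ : ℕ, ∀ x ≥ x₀,
    ∀ V : Submodule ℚ ℂ, Module.Finite ℚ V → finrank ℚ V ≤ m →
    (((Ioc 0 x).filter (fun n : ℕ =>
      ¬ NoRelOver (affSpan (algebraicClosure ℚ ℂ) V ^ (finrank ℚ V + 1)) (finrank ℚ V + 1)
        (Real.log n : ℂ))).card : ℝ) ≤ ε * x := by
  choose f hf using fun d : ℕ => density_over ((m + 1) ^ (d + 1)) (d + 1) ε hε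
  refine ⟨(Finset.range (m + 1)).sup f, fun x hx V hVf hVm => ?_⟩
  have h1 : f (finrank ℚ V) ≤ x :=
    (Finset.le_sup (f := f) (Finset.mem_range.2 (by omega))).trans hx
  have h0 := affSpan_finite (κ := algebraicClosure ℚ ℂ) V
  obtain ⟨h2, h3⟩ := finrank_pow_le (affSpan (algebraicClosure ℚ ℂ) V)
    (m + 1) ((finrank_affSpan_le V).trans (by omega)) (finrank ℚ V + 1)
  exact hf (finrank ℚ V) x h1 _ h2 h3 _ (Finset.filter_subset _ _)
    (fun n hn => (Finset.mem_filter.1 hn).2)

open Classical in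
/-- The uniform density theorem for tuples. -/
theorem density_ext (k : ℕ) : ∀ (m : ℕ) (ε : ℝ), 0 < ε →
    ∃ x₀ : ℕ, ∀ x ≥ x₀, ∀ V : Submodule ℚ ℂ, Module.Finite ℚ V → finrank ℚ V ≤ m →
    SingularHasZero V →
    (((Fintype.piFinset fun _ : Fin k => Ioc 0 x).filter (fun a => ¬ Good V a)).card : ℝ) ≤
      ε * x ^ k := by
  induction k with
  | zero =>
    intro m ε hε
    refine ⟨0, fun x _ V hVf hVm hV => ?_⟩
    rw [Finset.filter_false_of_mem]
    · simp [hε.le]
    · intro n _
      push Not
      unfold Good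
      have : Submodule.span ℚ (Set.range fun i : Fin 0 => (Real.log (n i) : ℂ)) = ⊥ := by
        rw [Set.range_eq_empty, Submodule.span_empty]
      rw [this, sup_bot_eq]
      exact ⟨hV, rfl⟩
  | succ k ih =>
    intro m ε hε
    obtain ⟨x₁, hx₁⟩ := density_ext_one m (ε / 2) (by linarith)
    obtain ⟨x₂, hx₂⟩ := ih (m + 1) (ε / 2) (by linarith)
    refine ⟨max x₁ x₂, fun x hx V hVf hVm hV => ?_⟩
    set bad : ((Fin (k + 1)) → ℕ) → Prop := fun n => ¬ Good V n with hbad
    set B := (Fintype.piFinset fun _ : Fin (k + 1) => Ioc 0 x).filter bad with hB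
    set A := (Ioc 0 x).filter (fun n : ℕ =>
      ¬ NoRelOver (affSpan (algebraicClosure ℚ ℂ) V ^ (finrank ℚ V + 1)) (finrank ℚ V + 1)
        (Real.log n : ℂ)) with hA
    have hAcard : (A.card : ℝ) ≤ ε / 2 * x :=
      hx₁ x (le_trans (le_max_left _ _) hx) V hVf hVm
    have hfib : B.card = ∑ a ∈ Ioc 0 x, (B.filter (fun n => n 0 = a)).card := by
      apply Finset.card_eq_sum_card_fiberwise
      intro n hn
      have hn' : n ∈ B := hn
      rw [hB, Finset.mem_filter, Fintype.mem_piFinset] at hn'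
      exact hn'.1 0
    have hle : ∀ a, (B.filter (fun n => n 0 = a)).card ≤
        ((Fintype.piFinset fun _ : Fin k => Ioc 0 x).filter (fun m => bad (Fin.cons a m))).card := by
      intro a
      apply Finset.card_le_card_of_injOn (fun n => Fin.tail n)
      · intro n hn
        have hn' : n ∈ B.filter (fun n => n 0 = a) := hn
        rw [Finset.mem_filter, hB, Finset.mem_filter, Fintype.mem_piFinset] at hn'
        have hcons : (Fin.cons a (Fin.tail n) : Fin (k + 1) → ℕ) = n := by
          rw [← hn'.2]; exact Fin.cons_self_tail n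
        show Fin.tail n ∈ _
        rw [Finset.mem_coe, Finset.mem_filter, Fintype.mem_piFinset]
        refine ⟨fun j => hn'.1.1 j.succ, ?_⟩
        rw [hcons]
        exact hn'.1.2
      · intro n hn m hm h
        have hn' : n ∈ B.filter (fun n => n 0 = a) := hn
        have hm' : m ∈ B.filter (fun n => n 0 = a) := hm
        rw [Finset.mem_filter] at hn' hm'
        rw [← Fin.cons_self_tail n, ← Fin.cons_self_tail m, hn'.2, hm'.2]
        have : Fin.tail n = Fin.tail m := h
        rw [this]
    have hgood : ∀ a ∈ Ioc 0 x, a ∉ A →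
        (((Fintype.piFinset fun _ : Fin k => Ioc 0 x).filter (fun m => bad (Fin.cons a m))).card : ℝ) ≤
          ε / 2 * x ^ k := by
      intro a ha haA
      have hta : NoRelOver (affSpan (algebraicClosure ℚ ℂ) V ^ (finrank ℚ V + 1)) (finrank ℚ V + 1)
        (Real.log a : ℂ) := by
        by_contra hcon
        apply haA
        rw [hA, Finset.mem_filter]
        exact ⟨ha, hcon⟩
      have h1 := hx₂ x (le_trans (le_max_right _ _) hx)
        (V ⊔ Submodule.span ℚ {(Real.log a : ℂ)}) inferInstance (by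
          rw [finrank_sup_span_singleton (not_mem_of_noRelOver hta)]
          omega) (extend V hV _ hta)
      refine le_trans ?_ h1
      have h2 : ((Fintype.piFinset fun _ : Fin k => Ioc 0 x).filter (fun m => bad (Fin.cons a m))).card ≤
          ((Fintype.piFinset fun _ : Fin k => Ioc 0 x).filter (fun m =>
            ¬ Good (V ⊔ Submodule.span ℚ {(Real.log a : ℂ)}) m)).card := by
        apply Finset.card_le_card
        apply Finset.monotone_filter_right
        intro m _ hm hg
        exact hm (good_cons a m hta hg)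
      exact_mod_cast h2
    have htriv : ∀ a, (((Fintype.piFinset fun _ : Fin k => Ioc 0 x).filter (fun m => bad (Fin.cons a m))).card : ℝ) ≤
          (x : ℝ) ^ k := by
      intro a
      have h1 := Finset.card_filter_le (Fintype.piFinset fun _ : Fin k => Ioc 0 x) (fun m => bad (Fin.cons a m))
      rw [Fintype.card_piFinset] at h1
      simp only [Nat.card_Ioc, Finset.prod_const, Finset.card_univ, Fintype.card_fin] at h1
      have h2 : (((Fintype.piFinset fun _ : Fin k => Ioc 0 x).filter (fun m => bad (Fin.cons a m))).card : ℝ) ≤ (((x - 0) ^ k : ℕ) : ℝ) := by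
        exact_mod_cast h1
      simpa using h2
    have hAsub : A ⊆ Ioc 0 x := Finset.filter_subset _ _
    calc (B.card : ℝ) = ∑ a ∈ Ioc 0 x, ((B.filter (fun n => n 0 = a)).card : ℝ) := by
          rw [hfib]; push_cast; rfl
      _ ≤ ∑ a ∈ Ioc 0 x, ((if a ∈ A then (x : ℝ) ^ k else 0) + ε / 2 * x ^ k) := by
          apply Finset.sum_le_sum
          intro a ha
          have h1 : ((B.filter (fun n => n 0 = a)).card : ℝ) ≤
            (((Fintype.piFinset fun _ : Fin k => Ioc 0 x).filter (fun m => bad (Fin.cons a m))).card : ℝ) := by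
            exact_mod_cast hle a
          by_cases haA : a ∈ A
          · rw [if_pos haA]
            have h2 := htriv a
            have h3 : (0 : ℝ) ≤ ε / 2 * x ^ k := by positivity
            linarith
          · rw [if_neg haA, zero_add]
            exact h1.trans (hgood a ha haA)
      _ = (A.card : ℝ) * x ^ k + x * (ε / 2 * x ^ k) := by
          rw [Finset.sum_add_distrib, ← Finset.sum_filter, Finset.filter_mem_eq_inter,
            Finset.inter_eq_right.2 hAsub, Finset.sum_const, Finset.sum_const, Nat.card_Ioc,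
            nsmul_eq_mul, nsmul_eq_mul]
          simp
      _ ≤ (ε / 2 * x) * x ^ k + x * (ε / 2 * x ^ k) := by gcongr
      _ = ε * x ^ (k + 1) := by ring

end Pool.Agent.W245
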