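import Mathlib
import Pool.Agent.W245.Extend
import Pool.Agent.H297R2.BakerThm

set_option autoImplicit false

/-!
# Spaces of logarithms of dimension at most two
-/

namespace Pool.Agent.W245

open Finset Module Complex Matrix Pool.Agent.H297R2

theorem singularHasZero_bot : SingularHasZero (⊥ : Submodule ℚ ℂ) := by
  intro n hn M hM _
  obtain ⟨n', rfl⟩ : ∃ n', n = n' + 1 := ⟨n - 1, by omega⟩
  have h0 : M = 0 := by
    ext i j
    exact (Submodule.mem_bot ℚ).1 (hM i j)
  refine ⟨Pi.single 0 1, Pi.single 0 1, ?_, ?_, ?_⟩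
  · intro h
    have := congrFun h 0
    simp at this
  · intro h
    have := congrFun h 0
    simp at this
  · rw [h0]
    simp

theorem singularHasZero_line (x : ℂ) : SingularHasZero (Submodule.span ℚ {x}) := by
  classical
  by_cases hx : x = 0
  · rw [hx, Submodule.span_zero_singleton]
    exact singularHasZero_bot
  intro n hn M hM hdet
  have h1 : ∀ i j, ∃ b : ℚ, M i j = x * (b : ℂ) := by
    intro i j
    obtain ⟨b, hb⟩ := Submodule.mem_span_singleton.1 (hM i j)
    exact ⟨b, by rw [← hb, Rat.smul_def, mul_comm]⟩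
  choose B hB using h1
  have hM' : M = x • (Matrix.of B).map (fun q : ℚ => (q : ℂ)) := by
    ext i j
    rw [hB i j]
    rfl
  rw [hM', Matrix.det_smul] at hdet
  have h2 : ((Matrix.of B).map (fun q : ℚ => (q : ℂ))).det = 0 :=
    (mul_eq_zero.1 hdet).resolve_left (pow_ne_zero _ hx)
  have h3 : (Matrix.of B).det = 0 := by
    have h4 := RingHom.map_det (Rat.castHom ℂ) (Matrix.of B)
    have h5 : ((Matrix.of B).det : ℂ) = 0 := by
      refine Eq.trans h4 (Eq.trans ?_ h2)
      congr 1
    exact_mod_cast h5
  obtain ⟨v, hv, hv0⟩ := Matrix.exists_mulVec_eq_zero_iff.2 h3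
  have hn0 : 0 < n := by omega
  refine ⟨Pi.single ⟨0, hn0⟩ 1, v, ?_, hv, ?_⟩
  · intro h
    have := congrFun h ⟨0, hn0⟩
    simp at this
  · change bil M _ v = 0
    rw [hM', bil_smul]
    unfold bil
    have h6 : ∀ i, ∑ j, (((Pi.single ⟨0, hn0⟩ 1 : Fin n → ℚ) i : ℚ) : ℂ) *
        ((Matrix.of B).map (fun q : ℚ => (q : ℂ))) i j * (v j : ℂ) = 0 := by
      intro i
      have h7 := congrFun hv0 i
      rw [Matrix.mulVec, dotProduct] at h7
      have h8 : ∑ j, ((B i j : ℚ) : ℂ) * (v j : ℂ) = 0 := by
        have := congrArg (fun q : ℚ => (q : ℂ)) h7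
        simp only [Matrix.of_apply, Pi.zero_apply, Rat.cast_zero] at this
        rw [← this]
        push_cast
        rfl
      simp only [mul_assoc]
      rw [← Finset.mul_sum]
      simp only [Matrix.map_apply, Matrix.of_apply]
      rw [h8, mul_zero]
    rw [Finset.sum_eq_zero (fun i _ => h6 i), mul_zero]

/-- Two independent logarithms. -/
theorem singularHasZero_plane (x y : ℂ) (hx : IsAlgebraic ℚ (cexp x)) (hy : IsAlgebraic ℚ (cexp y))
    (hli : LinearIndependent ℚ ![x, y]) :
    SingularHasZero (Submodule.span ℚ {x} ⊔ Submodule.span ℚ {y}) := by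
  classical
  intro n hn M hM hdet
  have hy0 : y ≠ 0 := by
    have := hli.ne_zero 1
    simpa using this
  have h1 : ∀ i j, ∃ a b : ℚ, M i j = x * (a : ℂ) + y * (b : ℂ) := by
    intro i j
    obtain ⟨u, hu, c, hc, hac⟩ := Submodule.mem_sup.1 (hM i j)
    obtain ⟨a, rfl⟩ := Submodule.mem_span_singleton.1 hu
    obtain ⟨b, rfl⟩ := Submodule.mem_span_singleton.1 hc
    exact ⟨a, b, by rw [← hac, Rat.smul_def, Rat.smul_def, mul_comm x, mul_comm y]⟩
  choose A B hAB using h1
  set q : Polynomial ℚ := Matrix.det (Matrix.of fun i j : Fin n =>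
      Polynomial.C (B i j) + Polynomial.X * Polynomial.C (A i j)) with hq
  have heval : ∀ t : ℂ, Polynomial.aeval t q =
      ((Matrix.of B).map (fun q : ℚ => (q : ℂ)) + t • (Matrix.of A).map (fun q : ℚ => (q : ℂ))).det := by
    intro t
    rw [hq, AlgHom.map_det]
    congr 1
    ext i j
    simp only [Matrix.of_apply, Matrix.add_apply, Matrix.smul_apply, Matrix.map_apply,
      AlgHom.mapMatrix_apply, map_add, map_mul, Polynomial.aeval_C, Polynomial.aeval_X, smul_eq_mul]
    rfl
  have hMeq : M = y • ((Matrix.of B).map (fun q : ℚ => (q : ℂ)) +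
      (x / y) • (Matrix.of A).map (fun q : ℚ => (q : ℂ))) := by
    ext i j
    simp only [Matrix.of_apply, Matrix.add_apply, Matrix.smul_apply, Matrix.map_apply, smul_eq_mul]
    rw [hAB i j]
    field_simp
    ring
  have hq0 : q = 0 := by
    by_contra hne
    have halg : IsAlgebraic ℚ (x / y) := by
      refine ⟨q, hne, ?_⟩
      rw [heval]
      rw [hMeq, Matrix.det_smul] at hdet
      exact (mul_eq_zero.1 hdet).resolve_left (pow_ne_zero _ hy0)
    have h2 := baker ![x, y] (by
      intro i
      fin_cases i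
      · exact hx
      · exact hy) hli ![1, -(x / y)] (by
      intro i
      fin_cases i
      · exact isAlgebraic_one
      · exact halg.neg) (by
      rw [Fin.sum_univ_two]
      simp
      field_simp
      ring) 0
    simp at h2
  obtain ⟨w, v, hw, hv, h2, h3⟩ := pencil_general (singularHasZero_line y)
    (y • (Matrix.of B).map (fun q : ℚ => (q : ℂ))) (by
      intro i j
      rw [Submodule.mem_span_singleton]
      refine ⟨B i j, ?_⟩
      rw [Rat.smul_def, mul_comm]
      rfl) (Matrix.of A) (by
      intro t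
      have h4 : y • (Matrix.of B).map (fun q : ℚ => (q : ℂ)) + t • (Matrix.of A).map (fun q : ℚ => (q : ℂ)) =
          y • ((Matrix.of B).map (fun q : ℚ => (q : ℂ)) +
            (t / y) • (Matrix.of A).map (fun q : ℚ => (q : ℂ))) := by
        rw [smul_add, smul_smul]
        congr 2
        field_simp
      rw [h4, Matrix.det_smul, ← heval, hq0, map_zero, mul_zero])
  refine ⟨w, v, hw, hv, ?_⟩
  change bil M w v = 0
  have h5 : M = y • (Matrix.of B).map (fun q : ℚ => (q : ℂ)) +
      x • (Matrix.of A).map (fun q : ℚ => (q : ℂ)) := by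
    ext i j
    simp only [Matrix.of_apply, Matrix.add_apply, Matrix.smul_apply, Matrix.map_apply, smul_eq_mul]
    rw [hAB i j]
    ring
  rw [h5, bil_add, bil_smul x, h2, h3, mul_zero, add_zero]

/-- Spaces of logarithms of dimension at most two. -/
theorem singularHasZero_small (V : Submodule ℚ ℂ) [Module.Finite ℚ V]
    (hlog : ∀ x ∈ V, IsAlgebraic ℚ (cexp x)) (h2 : finrank ℚ V ≤ 2) : SingularHasZero V := by
  set b := Module.finBasis ℚ V with hb
  have hspan : V = Submodule.span ℚ (Set.range (fun i => (b i : ℂ))) := by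
    have h1 : Set.range (fun i => (b i : ℂ)) = V.subtype '' Set.range b := by
      rw [← Set.range_comp]
      rfl
    rw [h1, Submodule.span_image, b.span_eq, Submodule.map_subtype_top]
  have hli : LinearIndependent ℚ (fun i => (b i : ℂ)) :=
    b.linearIndependent.map' V.subtype (Submodule.ker_subtype V)
  have hlog' : ∀ i, IsAlgebraic ℚ (cexp (b i : ℂ)) := fun i => hlog _ (b i).2
  generalize hd : (fun i => (b i : ℂ)) = f at hspan hli
  have hlog'' : ∀ i, IsAlgebraic ℚ (cexp (f i)) := by
    intro i
    rw [← hd]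
    exact hlog' i
  clear hlog' hd hb
  clear b
  rw [hspan]
  clear hspan
  generalize finrank ℚ V = d at h2 f hli hlog''
  interval_cases d
  · rw [Set.range_eq_empty, Submodule.span_empty]
    exact singularHasZero_bot
  · have : Set.range f = {f 0} := by
      ext z
      constructor
      · rintro ⟨i, rfl⟩
        rw [Subsingleton.elim i 0]
        rfl
      · rintro rfl
        exact ⟨0, rfl⟩
    rw [this]
    exact singularHasZero_line _
  · have : Set.range f = {f 0} ∪ {f 1} := by
      ext z
      constructor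
      · rintro ⟨i, rfl⟩
        fin_cases i
        · left; rfl
        · right; rfl
      · rintro (rfl | rfl)
        · exact ⟨0, rfl⟩
        · exact ⟨1, rfl⟩
    rw [this, Submodule.span_union]
    apply singularHasZero_plane _ _ (hlog'' 0) (hlog'' 1)
    convert hli using 1
    funext i
    fin_cases i <;> rfl

end Pool.Agent.W245
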