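import Mathlib
import Pool.Agent.W245.DensityExt

set_option autoImplicit false

/-!
# Infinite dimensional spaces of logarithms with the zero coefficient property
-/

namespace Pool.Agent.W245

open Finset Module Complex Pool.Agent.H297R2

/-- A large space of logarithms contains an element which extends a given space. -/
theorem exists_ext (m : ℕ) : ∃ r : ℕ, ∀ V : Submodule ℚ ℂ, Module.Finite ℚ V → finrank ℚ V ≤ m →
    ∀ w : Fin r → ℂ, (∀ i, IsAlgebraic ℚ (cexp (w i))) → LinearIndependent ℚ w →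
    ∃ S : Finset (Fin r),
      NoRelOver (affSpan (algebraicClosure ℚ ℂ) V ^ (finrank ℚ V + 1)) (finrank ℚ V + 1)
        (∑ i ∈ S, w i) := by
  classical
  have hac : IsAlgClosed (algebraicClosure ℚ ℂ) := (algebraicClosure.isAlgClosure ℚ ℂ).isAlgClosed
  choose f hf using fun d : ℕ => cube_over (algebraicClosure ℚ ℂ) ℂ ((m + 1) ^ (d + 1)) (d + 1)
  refine ⟨(Finset.range (m + 1)).sup f, ?_⟩
  intro V hVf hVm w hw hwli
  have h1 : f (finrank ℚ V) ≤ (Finset.range (m + 1)).sup f :=
    Finset.le_sup (f := f) (Finset.mem_range.2 (by omega))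
  have h0 := affSpan_finite (κ := algebraicClosure ℚ ℂ) V
  obtain ⟨h2, h3⟩ := finrank_pow_le (affSpan (algebraicClosure ℚ ℂ) V)
    (m + 1) ((finrank_affSpan_le V).trans (by omega)) (finrank ℚ V + 1)
  set w' : Fin (f (finrank ℚ V)) → ℂ := fun i => w (Fin.castLE h1 i) with hw'
  have hli : LinearIndependent ℚ w' := hwli.comp _ (Fin.castLE_injective h1)
  have hli' : LinearIndependent (algebraicClosure ℚ ℂ) w' := by
    rw [Fintype.linearIndependent_iff]
    intro c hc i
    have h4 := baker w' (fun i => hw _) hli (fun i => (c i : ℂ))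
      (fun i => (mem_algebraicClosure_iff).1 (c i).2) (by
        rw [← hc]
        apply Finset.sum_congr rfl
        intro i _
        rw [Algebra.smul_def]
        rfl) i
    exact_mod_cast h4
  obtain ⟨S, hS⟩ := hf (finrank ℚ V) _ h2 h3 0 w' hli'
  refine ⟨S.map (Fin.castLEEmb h1), ?_⟩
  rw [Finset.sum_map]
  rw [zero_add] at hS
  exact hS

/-- In an infinite dimensional space there are arbitrarily large independent families. -/
theorem exists_indep (Λ : Submodule ℚ ℂ) (hΛ : ¬ Module.Finite ℚ Λ) (r : ℕ) :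
    ∃ w : Fin r → ℂ, (∀ i, w i ∈ Λ) ∧ LinearIndependent ℚ w := by
  classical
  have h1 : Cardinal.aleph0 ≤ Module.rank ℚ Λ := by
    by_contra h
    push Not at h
    exact hΛ (Module.rank_lt_aleph0_iff.1 h)
  have h2 : (r : Cardinal) ≤ Module.rank ℚ Λ := (Cardinal.natCast_lt_aleph0.le).trans h1
  obtain ⟨s, hs, hli⟩ := exists_set_linearIndependent ℚ Λ
  have h3 : (r : Cardinal) ≤ Cardinal.mk s := by rw [hs]; exact h2
  obtain ⟨e⟩ : Nonempty (Fin r ↪ s) := by
    rw [← Cardinal.mk_fin, Cardinal.le_def] at h3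
    exact h3
  refine ⟨fun i => ((e i : Λ) : ℂ), fun i => (e i : Λ).2, ?_⟩
  exact (hli.comp e e.injective).map' Λ.subtype (Submodule.ker_subtype Λ)

theorem exists_ext_mem (Λ : Submodule ℚ ℂ) (hΛ : ¬ Module.Finite ℚ Λ)
    (hlog : ∀ x ∈ Λ, IsAlgebraic ℚ (cexp x)) (V : Submodule ℚ ℂ) [Module.Finite ℚ V]
    (hV : SingularHasZero V) : ∃ x ∈ Λ, x ∉ V ∧ SingularHasZero (V ⊔ Submodule.span ℚ {x}) := by
  obtain ⟨r, hr⟩ := exists_ext (finrank ℚ V)
  obtain ⟨w, hw, hli⟩ := exists_indep Λ hΛ r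
  obtain ⟨S, hS⟩ := hr V inferInstance le_rfl w (fun i => hlog _ (hw i)) hli
  exact ⟨_, Submodule.sum_mem _ (fun i _ => hw i), not_mem_of_noRelOver hS, extend V hV _ hS⟩

/-- The property passes to unions of chains. -/
theorem SingularHasZero.iSup {V : ℕ → Submodule ℚ ℂ} (hmono : Monotone V)
    (hV : ∀ i, SingularHasZero (V i)) : SingularHasZero (⨆ i, V i) := by
  classical
  intro n hn M hM hdet
  have h1 : ∀ i j, ∃ N, M i j ∈ V N := by
    intro i j
    exact (Submodule.mem_iSup_of_directed V hmono.directed_le).1 (hM i j)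
  choose N hN using h1
  set N₀ := (univ : Finset (Fin n)).sup (fun i => (univ : Finset (Fin n)).sup (fun j => N i j)) with hN₀
  have h2 : ∀ i j, M i j ∈ V N₀ := by
    intro i j
    apply hmono _ (hN i j)
    exact (Finset.le_sup (f := fun j => N i j) (Finset.mem_univ j)).trans
      (Finset.le_sup (f := fun i => (univ : Finset (Fin n)).sup (fun j => N i j)) (Finset.mem_univ i))
  exact hV N₀ n hn M h2 hdet

/-- **Infinite extension theorem.** -/
theorem exists_infinite (Λ : Submodule ℚ ℂ) (hΛ : ¬ Module.Finite ℚ Λ)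
    (hlog : ∀ x ∈ Λ, IsAlgebraic ℚ (cexp x)) (V₀ : Submodule ℚ ℂ) [Module.Finite ℚ V₀]
    (hV₀ : SingularHasZero V₀) :
    ∃ l : ℕ → ℂ, (∀ i, l i ∈ Λ) ∧
      (∀ i, l i ∉ V₀ ⊔ Submodule.span ℚ (l '' Set.Iio i)) ∧
      SingularHasZero (V₀ ⊔ Submodule.span ℚ (Set.range l)) := by
  classical
  -- one step
  have step : ∀ V : Submodule ℚ ℂ, ∃ x : ℂ, x ∈ Λ ∧ (Module.Finite ℚ V → SingularHasZero V →
      x ∉ V ∧ SingularHasZero (V ⊔ Submodule.span ℚ {x})) := by
    intro V
    by_cases h : Module.Finite ℚ V ∧ SingularHasZero V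
    · obtain ⟨h1, h2⟩ := h
      obtain ⟨x, hx, hx1, hx2⟩ := exists_ext_mem Λ hΛ hlog V h2
      exact ⟨x, hx, fun _ _ => ⟨hx1, hx2⟩⟩
    · exact ⟨0, Λ.zero_mem, fun h1 h2 => absurd ⟨h1, h2⟩ h⟩
  choose g hg1 hg2 using step
  -- the chain
  obtain ⟨U, hU0, hUs⟩ : ∃ U : ℕ → Submodule ℚ ℂ, U 0 = V₀ ∧
      ∀ n, U (n + 1) = U n ⊔ Submodule.span ℚ {g (U n)} :=
    ⟨fun n => Nat.rec V₀ (fun _ V => V ⊔ Submodule.span ℚ {g V}) n, rfl, fun n => rfl⟩
  have hUfin : ∀ n, Module.Finite ℚ (U n) := by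
    intro n
    induction n with
    | zero => rw [hU0]; infer_instance
    | succ n ih => rw [hUs]; infer_instance
  have hUgood : ∀ n, SingularHasZero (U n) := by
    intro n
    induction n with
    | zero => rw [hU0]; exact hV₀
    | succ n ih => rw [hUs]; exact (hg2 (U n) (hUfin n) ih).2
  have hUmono : Monotone U := monotone_nat_of_le_succ (fun n => by rw [hUs]; exact le_sup_left)
  have hUeq : ∀ n, U n = V₀ ⊔ Submodule.span ℚ ((fun n => g (U n)) '' Set.Iio n) := by
    intro n
    induction n with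
    | zero =>
      rw [hU0]
      have : (Set.Iio 0 : Set ℕ) = ∅ := by ext; simp
      rw [this, Set.image_empty, Submodule.span_empty, sup_bot_eq]
    | succ n ih =>
      rw [hUs]
      have : (Set.Iio (n + 1) : Set ℕ) = Set.Iio n ∪ {n} := by ext; simp
      rw [this, Set.image_union, Set.image_singleton, Submodule.span_union, ← sup_assoc, ← ih]
  refine ⟨fun n => g (U n), fun n => hg1 _, fun n => ?_, ?_⟩
  · rw [← hUeq n]
    exact (hg2 (U n) (hUfin n) (hUgood n)).1
  · have h1 : V₀ ⊔ Submodule.span ℚ (Set.range fun n => g (U n)) = ⨆ n, U n := by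
      apply le_antisymm
      · apply sup_le
        · exact (le_of_eq hU0.symm).trans (le_iSup U 0)
        · rw [Submodule.span_le]
          rintro _ ⟨n, rfl⟩
          have h2 : g (U n) ∈ U (n + 1) := by
            rw [hUs]
            exact Submodule.mem_sup_right (Submodule.mem_span_singleton_self _)
          exact (le_iSup U (n + 1)) h2
      · apply iSup_le
        intro n
        rw [hUeq n]
        exact sup_le_sup_left (Submodule.span_mono (Set.image_subset_range _ _)) _
    rw [h1]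
    exact SingularHasZero.iSup hUmono hUgood

end Pool.Agent.W245
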