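import Mathlib
import Pool.Agent.W245.DensityExt

set_option autoImplicit false
set_option linter.unusedSectionVars false

/-!
# Almost all tuples of logarithms over an arbitrary finite dimensional space of coefficients
-/

namespace Pool.Agent.W245

open Finset Module Complex Pool.Agent.H297R2

section Gen

variable {κ C : Type*} [Field κ] [Field C] [Algebra κ C]

/-- `y` satisfies no nontrivial polynomial relation, of degree `≤ D` in each variable, with
coefficients in `W`. -/
def NoRelT (W : Submodule κ C) (D : ℕ) {k : ℕ} (y : Fin k → C) : Prop :=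
  ∀ c : (Fin k → Fin (D + 1)) → C, (∀ s, c s ∈ W) → ∑ s, c s * ∏ i, y i ^ (s i : ℕ) = 0 →
    ∀ s, c s = 0

/-- The space generated by the products of elements of `W` with small powers of `b`. -/
def powExt (W : Submodule κ C) (D : ℕ) (b : C) : Submodule κ C :=
  W * Submodule.span κ (Set.range fun j : Fin (D + 1) => b ^ (j : ℕ))

theorem powExt_finite (W : Submodule κ C) [Module.Finite κ W] (N : ℕ) (hN : finrank κ W ≤ N)
    (D : ℕ) (b : C) : Module.Finite κ (powExt W D b) ∧ finrank κ (powExt W D b) ≤ N * (D + 1) := by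
  have h1 : Module.Finite κ (Submodule.span κ (Set.range fun j : Fin (D + 1) => b ^ (j : ℕ))) :=
    FiniteDimensional.span_of_finite κ (Set.finite_range _)
  have h2 : finrank κ (Submodule.span κ (Set.range fun j : Fin (D + 1) => b ^ (j : ℕ))) ≤ D + 1 := by
    refine (finrank_range_le_card _).trans ?_
    simp
  unfold powExt
  rw [← Submodule.mulMap_range]
  constructor
  · infer_instance
  · refine (LinearMap.finrank_range_le _).trans ?_
    rw [Module.finrank_tensorProduct]
    exact Nat.mul_le_mul hN h2

theorem NoRelT.zero (W : Submodule κ C) (D : ℕ) (y : Fin 0 → C) : NoRelT W D y := by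
  intro c _ h s
  rw [Fintype.sum_unique, Fintype.prod_empty, mul_one] at h
  exact (congrArg c (Subsingleton.elim s _)).trans h

theorem NoRelT.cons {W : Submodule κ C} {D k : ℕ} {b : C} {y : Fin k → C}
    (hb : NoRelOver W D b) (hy : NoRelT (powExt W D b) D y) :
    NoRelT W D (Fin.cons b y : Fin (k + 1) → C) := by
  intro c hc h s
  have h1 : ∑ s' : Fin k → Fin (D + 1), (∑ j : Fin (D + 1), c (Fin.cons j s') * b ^ (j : ℕ)) *
      ∏ i, y i ^ (s' i : ℕ) = 0 := by
    rw [← h, ← (Fin.consEquiv (fun _ : Fin (k + 1) => Fin (D + 1))).sum_comp, Fintype.sum_prod_type_right]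
    refine Finset.sum_congr rfl fun s' _ => ?_
    rw [Finset.sum_mul]
    refine Finset.sum_congr rfl fun j _ => ?_
    rw [Fin.prod_univ_succ]
    simp only [Fin.consEquiv, Equiv.coe_fn_mk, Fin.cons_zero, Fin.cons_succ]
    ring
  have h2 := hy (fun s' => ∑ j : Fin (D + 1), c (Fin.cons j s') * b ^ (j : ℕ)) (by
    intro s'
    apply Submodule.sum_mem
    intro j _
    exact Submodule.mul_mem_mul (hc _) (Submodule.subset_span ⟨j, rfl⟩)) h1
  have h3 := hb (fun j => c (Fin.cons j (Fin.tail s))) (fun j => hc _) (h2 (Fin.tail s)) (s 0)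
  rw [Fin.cons_self_tail] at h3
  exact h3

/-- The formulation with polynomials. -/
theorem NoRelT.poly {W : Submodule κ C} {D k : ℕ} {y : Fin k → C} (hy : NoRelT W D y)
    (Q : MvPolynomial (Fin k) C) (hdeg : ∀ i, Q.degreeOf i ≤ D) (hW : ∀ s, Q.coeff s ∈ W)
    (h0 : MvPolynomial.eval y Q = 0) : Q = 0 := by
  classical
  let e : (Fin k → Fin (D + 1)) → (Fin k →₀ ℕ) := fun s => Finsupp.equivFunOnFinite.symm (fun i => (s i : ℕ))
  have he : Function.Injective e := by
    intro s s' h
    funext i
    have := DFunLike.congr_fun h i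
    exact Fin.ext (by simpa [e] using this)
  have hsupp : Q.support ⊆ (univ : Finset (Fin k → Fin (D + 1))).image e := by
    intro m hm
    rw [Finset.mem_image]
    refine ⟨fun i => ⟨m i, Nat.lt_succ_of_le ((MvPolynomial.degreeOf_le_iff.1 (hdeg i)) m hm)⟩, Finset.mem_univ _, ?_⟩
    ext i
    simp [e]
  have h1 : ∑ s : Fin k → Fin (D + 1), Q.coeff (e s) * ∏ i, y i ^ (s i : ℕ) = 0 := by
    rw [← h0, MvPolynomial.eval_eq]
    rw [Finset.sum_subset hsupp (by
      intro m _ hm
      rw [MvPolynomial.notMem_support_iff.1 hm, zero_mul])]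
    rw [Finset.sum_image (fun a _ b _ h => he h)]
    refine Finset.sum_congr rfl fun s _ => ?_
    congr 1
    rw [Finset.prod_subset (Finset.subset_univ (e s).support) (by
      intro i _ hi
      rw [Finsupp.notMem_support_iff.1 hi, pow_zero])]
    simp [e]
  have h2 := hy (fun s => Q.coeff (e s)) (fun s => hW _) h1
  ext m
  rw [MvPolynomial.coeff_zero]
  by_cases hm : m ∈ Q.support
  · obtain ⟨s, _, rfl⟩ := Finset.mem_image.1 (hsupp hm)
    exact h2 s
  · exact MvPolynomial.notMem_support_iff.1 hm

end Gen

open Classical in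
/-- The uniform density theorem for tuples over a finite dimensional space. -/
theorem density_over_tuples (k : ℕ) : ∀ (N D : ℕ) (ε : ℝ), 0 < ε →
    ∃ x₀ : ℕ, ∀ x ≥ x₀, ∀ W : Submodule (algebraicClosure ℚ ℂ) ℂ,
    Module.Finite (algebraicClosure ℚ ℂ) W → finrank (algebraicClosure ℚ ℂ) W ≤ N →
    (((Fintype.piFinset fun _ : Fin k => Ioc 0 x).filter (fun a =>
      ¬ NoRelT W D (fun i => (Real.log (a i) : ℂ)))).card : ℝ) ≤ ε * x ^ k := by
  induction k with
  | zero =>
    intro N D ε hε
    refine ⟨0, fun x _ W hWf hWN => ?_⟩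
    rw [Finset.filter_false_of_mem]
    · simp [hε.le]
    · intro n _
      push Not
      exact NoRelT.zero _ _ _
  | succ k ih =>
    intro N D ε hε
    obtain ⟨x₁, hx₁⟩ := density_over N D (ε / 2) (by linarith)
    obtain ⟨x₂, hx₂⟩ := ih (N * (D + 1)) D (ε / 2) (by linarith)
    refine ⟨max x₁ x₂, fun x hx W hWf hWN => ?_⟩
    set bad : ((Fin (k + 1)) → ℕ) → Prop := fun n => ¬ NoRelT W D (fun i => (Real.log (n i) : ℂ)) with hbad
    set B := (Fintype.piFinset fun _ : Fin (k + 1) => Ioc 0 x).filter bad with hB
    set A := (Ioc 0 x).filter (fun n : ℕ => ¬ NoRelOver W D (Real.log n : ℂ)) with hA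
    have hAcard : (A.card : ℝ) ≤ ε / 2 * x :=
      hx₁ x (le_trans (le_max_left _ _) hx) W hWf hWN A (Finset.filter_subset _ _)
        (fun n hn => (Finset.mem_filter.1 hn).2)
    have hfib : B.card = ∑ a ∈ Ioc 0 x, (B.filter (fun n => n 0 = a)).card := by
      apply Finset.card_eq_sum_card_fiberwise
      intro n hn
      have hn' : n ∈ B := hn
      rw [hB, Finset.mem_filter, Fintype.mem_piFinset] at hn'
      exact hn'.1 0
    have hle : ∀ a, (B.filter (fun n => n 0 = a)).card ≤
        ((Fintype.piFinset fun _ : Fin k => Ioc 0 x).filter (fun m => bad (Fin.cons a m))).card := by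
      intro a
      apply Finset.card_le_card_of_injOn (fun n => Fin.tail n)
      · intro n hn
        have hn' : n ∈ B.filter (fun n => n 0 = a) := hn
        rw [Finset.mem_filter, hB, Finset.mem_filter, Fintype.mem_piFinset] at hn'
        have hcons : (Fin.cons a (Fin.tail n) : Fin (k + 1) → ℕ) = n := by
          rw [← hn'.2]; exact Fin.cons_self_tail n
        show Fin.tail n ∈ _
        rw [Finset.mem_coe, Finset.mem_filter, Fintype.mem_piFinset]
        refine ⟨fun j => hn'.1.1 j.succ, ?_⟩
        rw [hcons]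
        exact hn'.1.2
      · intro n hn m hm h
        have hn' : n ∈ B.filter (fun n => n 0 = a) := hn
        have hm' : m ∈ B.filter (fun n => n 0 = a) := hm
        rw [Finset.mem_filter] at hn' hm'
        rw [← Fin.cons_self_tail n, ← Fin.cons_self_tail m, hn'.2, hm'.2]
        have : Fin.tail n = Fin.tail m := h
        rw [this]
    have hgood : ∀ a ∈ Ioc 0 x, a ∉ A →
        (((Fintype.piFinset fun _ : Fin k => Ioc 0 x).filter (fun m => bad (Fin.cons a m))).card : ℝ) ≤
          ε / 2 * x ^ k := by
      intro a ha haA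
      have hta : NoRelOver W D (Real.log a : ℂ) := by
        by_contra hcon
        apply haA
        rw [hA, Finset.mem_filter]
        exact ⟨ha, hcon⟩
      obtain ⟨hf, hr⟩ := powExt_finite W N hWN D (Real.log a : ℂ)
      have h1 := hx₂ x (le_trans (le_max_right _ _) hx) (powExt W D (Real.log a : ℂ)) hf hr
      refine le_trans ?_ h1
      have h2 : ((Fintype.piFinset fun _ : Fin k => Ioc 0 x).filter (fun m => bad (Fin.cons a m))).card ≤
          ((Fintype.piFinset fun _ : Fin k => Ioc 0 x).filter (fun m =>
            ¬ NoRelT (powExt W D (Real.log a : ℂ)) D (fun i => (Real.log (m i) : ℂ)))).card := by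
        apply Finset.card_le_card
        apply Finset.monotone_filter_right
        intro m _ hm hg
        apply hm
        have h3 := NoRelT.cons hta hg
        convert h3 using 1
        funext i
        refine Fin.cases ?_ (fun j => ?_) i
        · simp
        · simp
      exact_mod_cast h2
    have htriv : ∀ a, (((Fintype.piFinset fun _ : Fin k => Ioc 0 x).filter (fun m => bad (Fin.cons a m))).card : ℝ) ≤
          (x : ℝ) ^ k := by
      intro a
      have h1 := Finset.card_filter_le (Fintype.piFinset fun _ : Fin k => Ioc 0 x) (fun m => bad (Fin.cons a m))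
      rw [Fintype.card_piFinset] at h1
      simp only [Nat.card_Ioc, Finset.prod_const, Finset.card_univ, Fintype.card_fin] at h1
      have h2 : (((Fintype.piFinset fun _ : Fin k => Ioc 0 x).filter (fun m => bad (Fin.cons a m))).card : ℝ) ≤ (((x - 0) ^ k : ℕ) : ℝ) := by
        exact_mod_cast h1
      simpa using h2
    have hAsub : A ⊆ Ioc 0 x := Finset.filter_subset _ _
    calc (B.card : ℝ) = ∑ a ∈ Ioc 0 x, ((B.filter (fun n => n 0 = a)).card : ℝ) := by
          rw [hfib]; push_cast; rfl
      _ ≤ ∑ a ∈ Ioc 0 x, ((if a ∈ A then (x : ℝ) ^ k else 0) + ε / 2 * x ^ k) := by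
          apply Finset.sum_le_sum
          intro a ha
          have h1 : ((B.filter (fun n => n 0 = a)).card : ℝ) ≤
            (((Fintype.piFinset fun _ : Fin k => Ioc 0 x).filter (fun m => bad (Fin.cons a m))).card : ℝ) := by
            exact_mod_cast hle a
          by_cases haA : a ∈ A
          · rw [if_pos haA]
            have h2 := htriv a
            have h3 : (0 : ℝ) ≤ ε / 2 * x ^ k := by positivity
            linarith
          · rw [if_neg haA, zero_add]
            exact h1.trans (hgood a ha haA)
      _ = (A.card : ℝ) * x ^ k + x * (ε / 2 * x ^ k) := by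
          rw [Finset.sum_add_distrib, ← Finset.sum_filter, Finset.filter_mem_eq_inter,
            Finset.inter_eq_right.2 hAsub, Finset.sum_const, Finset.sum_const, Nat.card_Ioc,
            nsmul_eq_mul, nsmul_eq_mul]
          simp
      _ ≤ (ε / 2 * x) * x ^ k + x * (ε / 2 * x ^ k) := by gcongr
      _ = ε * x ^ (k + 1) := by ring

end Pool.Agent.W245
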