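import Mathlib
import Pool.Agent.H297R2.Cube
import Pool.Agent.H297R2.Eval

set_option autoImplicit false

/-!
# Cubes in the product of an additive and a multiplicative group

A function `∑ a, χ_a(y) P_a(x)` with distinct characters `χ_a` and polynomials `P_a`, not all zero,
does not vanish on a large cube.
-/

namespace Pool.Agent.W245

open Finset Polynomial Pool.Agent.H297R2

section Deg

variable {V κ : Type*} [AddCommGroup V]

/-- Functions of degree less than `n`; for `n = 0` only the zero function. -/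
def DegLT [CommRing κ] : ℕ → (V → κ) → Prop
  | 0, f => f = fun _ => 0
  | (n + 1), f => DegLE n f

theorem DegLT.shift_sub [CommRing κ] {n : ℕ} {f : V → κ} (hf : DegLT n f) (c c' : κ) (w : V) :
    DegLT n (fun x => c * f (x + w) - c' * f x) := by
  rcases n with _ | n
  · have hf' : f = fun _ => 0 := hf
    rw [hf']
    change (fun _ => _) = fun _ => _
    funext x
    ring
  · have hf' : DegLE n f := hf
    have h1 := (hf'.shift w).const_mul c
    have h2 := hf'.const_mul (-c')
    have h3 := h1.add h2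
    change DegLE n _
    convert h3 using 2
    ring

theorem DegLT.diff [CommRing κ] {n : ℕ} {f : V → κ} (hf : DegLT (n + 1) f) (c : κ) (w : V) :
    DegLT n (fun x => c * f (x + w) - c * f x) := by
  rcases n with _ | n
  · obtain ⟨c₀, hc₀⟩ : DegLE 0 f := hf
    rw [hc₀]
    change (fun _ => _) = fun _ => _
    funext x
    ring
  · have hf' : DegLE (n + 1) f := hf
    have h1 := (hf' w).const_mul c
    change DegLE n _
    convert h1 using 2
    ring

theorem eq_zero_of_shift [Field κ] {c c' : κ} (hcc : c ≠ c') (w : V) (d : ℕ) :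
    ∀ f : V → κ, DegLE d f → (∀ x, c * f (x + w) = c' * f x) → ∀ x, f x = 0 := by
  have hne : c' - c ≠ 0 := sub_ne_zero.2 (Ne.symm hcc)
  induction d with
  | zero =>
    rintro f ⟨c₀, rfl⟩ h x
    have h1 := h x
    have h2 : (c' - c) * c₀ = 0 := by linear_combination -h1
    exact (mul_eq_zero.1 h2).resolve_left hne
  | succ d ih =>
    intro f hf h
    apply ih f _ h
    have h1 := (hf w).const_mul ((c' - c)⁻¹ * c)
    convert h1 using 1
    funext x
    have h2 := h x
    field_simp
    linear_combination -h2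

theorem linePoly_shift [CommRing κ] [Module κ V] {f : V → κ} (hf : LinePoly f) (v : V) :
    LinePoly (fun x => f (x + v)) := by
  intro x u
  obtain ⟨p, hp⟩ := hf (x + v) u
  refine ⟨p, fun s => ?_⟩
  rw [← hp, add_right_comm]

end Deg

section Main

variable {V κ : Type*} [AddCommGroup V] [Field κ] [CharZero κ] [Module κ V]
  {ι A : Type*} [Fintype A] [DecidableEq A]

/-- The value at a vertex of the cube. -/
def cubeVal (P : A → V → κ) {T : ℕ} (β : Fin T → ι → V) (ρ : Fin T → ι → A → κ) (b : V)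
    (c : A → κ) (η : Fin T → Option ι) : κ :=
  ∑ a, (c a * ∏ g, (η g).elim 1 (fun i => ρ g i a)) * P a (b + ∑ g, (η g).elim 0 (β g))

omit [CharZero κ] [Module κ V] [DecidableEq A] in
theorem cubeVal_cons (P : A → V → κ) {T : ℕ} (β : Fin (T + 1) → ι → V)
    (ρ : Fin (T + 1) → ι → A → κ) (b : V) (c : A → κ) (η : Fin T → Option ι) (i₀ : ι) (a₀ : A) :
    cubeVal (fun a x => ρ 0 i₀ a * P a (x + β 0 i₀) - ρ 0 i₀ a₀ * P a x) (fun g => β g.succ)
      (fun g => ρ g.succ) b c η =
    cubeVal P β ρ b c (Fin.cons (some i₀) η) - ρ 0 i₀ a₀ * cubeVal P β ρ b c (Fin.cons none η) := by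
  unfold cubeVal
  rw [Finset.mul_sum, ← Finset.sum_sub_distrib]
  refine Finset.sum_congr rfl fun a _ => ?_
  rw [Fin.prod_univ_succ, Fin.sum_univ_succ, Fin.prod_univ_succ, Fin.sum_univ_succ]
  simp only [Fin.cons_zero, Fin.cons_succ, Option.elim_some, Option.elim_none]
  rw [one_mul, zero_add]
  have h1 : b + (β 0 i₀ + ∑ g : Fin T, (η g).elim 0 (β g.succ)) =
      b + ∑ g : Fin T, (η g).elim 0 (β g.succ) + β 0 i₀ := by abel
  rw [h1]
  ring

theorem mixed (T : ℕ) [Nonempty ι] : ∀ (P : A → V → κ) (n : A → ℕ), (∀ a, DegLT (n a) (P a)) →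
    (∀ a, LinePoly (P a)) → (∃ a x, P a x ≠ 0) → ∑ a, n a ≤ T →
    ∀ (β : Fin T → ι → V) (ρ : Fin T → ι → A → κ),
    (∀ g, Submodule.span κ (Set.range (β g)) = ⊤) → (∀ g i a, ρ g i a ≠ 0) →
    (∀ g i a a', a ≠ a' → ρ g i a ≠ ρ g i a') → ∀ (b : V) (c : A → κ), (∀ a, c a ≠ 0) →
    ∃ η : Fin T → Option ι, cubeVal P β ρ b c η ≠ 0 := by
  classical
  induction T with
  | zero =>
    intro P n hdeg _ hne hn
    exfalso
    obtain ⟨a, x, hx⟩ := hne
    have h1 : n a = 0 := by
      have := Finset.single_le_sum (f := n) (fun _ _ => Nat.zero_le _) (Finset.mem_univ a)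
      omega
    have h2 := hdeg a
    rw [h1] at h2
    have h3 : P a = fun _ => 0 := h2
    exact hx (by rw [h3])
  | succ T ih =>
    intro P n hdeg hline hne hn β ρ hβ hρ0 hρ b c hc
    -- the general step
    have step : ∀ (a₀ : A) (i₀ : ι), 1 ≤ n a₀ →
        (∃ a x, ρ 0 i₀ a * P a (x + β 0 i₀) - ρ 0 i₀ a₀ * P a x ≠ 0) →
        ∃ η : Fin (T + 1) → Option ι, cubeVal P β ρ b c η ≠ 0 := by
      intro a₀ i₀ hn₀ hne'
      obtain ⟨η, hη⟩ := ih (fun a x => ρ 0 i₀ a * P a (x + β 0 i₀) - ρ 0 i₀ a₀ * P a x)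
        (Function.update n a₀ (n a₀ - 1)) (by
          intro a
          by_cases ha : a = a₀
          · subst ha
            rw [Function.update_self]
            obtain ⟨k, hk⟩ : ∃ k, n a = k + 1 := ⟨n a - 1, by omega⟩
            have h1 := hdeg a
            rw [hk] at h1 ⊢
            exact h1.diff _ _
          · rw [Function.update_of_ne ha]
            exact (hdeg a).shift_sub _ _ _) (by
          intro a
          have h1 := (LinePoly.const (V := V) (ρ 0 i₀ a)).mul (linePoly_shift (hline a) (β 0 i₀))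
          have h2 := (LinePoly.const (V := V) (-ρ 0 i₀ a₀)).mul (hline a)
          have h3 := h1.add h2
          convert h3 using 2
          ring) hne' (by
          have h1 := Finset.sum_update_of_mem (Finset.mem_univ a₀) n (n a₀ - 1)
          have h2 := Finset.sum_erase_add (s := univ) (f := n) (a := a₀) (Finset.mem_univ a₀)
          rw [Finset.sdiff_singleton_eq_erase] at h1
          omega) (fun g => β g.succ) (fun g => ρ g.succ) (fun g => hβ _) (fun g => hρ0 _)
          (fun g => hρ _) b c hc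
      rw [cubeVal_cons] at hη
      by_cases h : cubeVal P β ρ b c (Fin.cons (some i₀) η) = 0
      · refine ⟨Fin.cons none η, fun h' => hη ?_⟩
        rw [h, h', mul_zero, sub_zero]
      · exact ⟨_, h⟩
    obtain ⟨a₁, x₁, hx₁⟩ := hne
    have hn₁ : 1 ≤ n a₁ := by
      by_contra h
      have h1 : n a₁ = 0 := by omega
      have h2 := hdeg a₁
      rw [h1] at h2
      have h3 : P a₁ = fun _ => 0 := h2
      exact hx₁ (by rw [h3])
    by_cases hex : ∃ a₀, a₀ ≠ a₁ ∧ 1 ≤ n a₀
    · obtain ⟨a₀, ha₀, hn₀⟩ := hex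
      obtain ⟨i₀⟩ := ‹Nonempty ι›
      apply step a₀ i₀ hn₀
      by_contra hcon
      push Not at hcon
      have h1 : ∀ x, ρ 0 i₀ a₁ * P a₁ (x + β 0 i₀) = ρ 0 i₀ a₀ * P a₁ x := fun x =>
        sub_eq_zero.1 (hcon a₁ x)
      obtain ⟨k, hk⟩ : ∃ k, n a₁ = k + 1 := ⟨n a₁ - 1, by omega⟩
      have h2 := hdeg a₁
      rw [hk] at h2
      exact hx₁ (eq_zero_of_shift (hρ 0 i₀ a₁ a₀ (Ne.symm ha₀)) (β 0 i₀) k (P a₁) h2 h1 x₁)
    · push Not at hex
      have hP0 : ∀ a, a ≠ a₁ → ∀ x, P a x = 0 := by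
        intro a ha x
        have h1 : n a = 0 := by have := hex a ha; omega
        have h2 := hdeg a
        rw [h1] at h2
        have h3 : P a = fun _ => 0 := h2
        rw [h3]
      by_cases h : ∃ i x, P a₁ (x + β 0 i) - P a₁ x ≠ 0
      · obtain ⟨i₀, x, hx⟩ := h
        refine step a₁ i₀ hn₁ ⟨a₁, x, ?_⟩
        rw [← mul_sub]
        exact mul_ne_zero (hρ0 _ _ _) hx
      · push Not at h
        refine ⟨fun _ => none, ?_⟩
        unfold cubeVal
        rw [Finset.sum_eq_single a₁]
        · simp only [Option.elim, Finset.prod_const_one, Finset.sum_const_zero, add_zero, mul_one]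
          refine mul_ne_zero (hc _) ?_
          rw [constant_of_invariant (P a₁) (hline a₁) (β 0) (hβ 0)
            (fun i x => sub_eq_zero.1 (h i x)) b x₁]
          exact hx₁
        · intro a _ ha
          rw [hP0 a ha, mul_zero]
        · intro h'
          exact absurd (Finset.mem_univ _) h'

end Main

/-- Simultaneous choice of rational points, with distinct characters. -/
theorem exists_points2 (κ : Type*) [Field κ] [IsAlgClosed κ] (R : Type*) [CommRing R] [IsDomain R]
    [Algebra κ R] [Algebra.FiniteType κ R] {G Dir E : Type*} [Fintype G] [Fintype Dir] [Fintype E]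
    (θ : Dir → E → R) (hunit : ∀ i e, IsUnit (θ i e))
    (hθ : ∀ i e e', e ≠ e' → ∀ c c' : κ, c ≠ 0 → c' ≠ 0 → c • θ i e ≠ c' • θ i e') (N : ℕ) :
    ∀ (W : G → Submodule κ R) [∀ g, Module.Finite κ (W g)], (∀ g, Module.finrank κ (W g) ≤ N) →
    ∀ Pr : Finset (κ × κ), (∀ p ∈ Pr, p.1 ≠ 0 ∧ p.2 ≠ 0) →
    ∃ φ : Fin N → (R →ₐ[κ] κ), (∀ g, ∀ w ∈ W g, (∀ j, φ j w = 0) → w = 0) ∧
      ∀ p ∈ Pr, ∀ i (a a' : Fin N → E), (a ≠ a' ∨ p.1 ≠ p.2) →
        p.1 * ∏ j, φ j (θ i (a j)) ≠ p.2 * ∏ j, φ j (θ i (a' j)) := by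
  classical
  have hφθ : ∀ (φ : R →ₐ[κ] κ) i e, φ (θ i e) ≠ 0 := fun φ i e => ((hunit i e).map φ).ne_zero
  induction N with
  | zero =>
    intro W _ hW Pr hPr
    refine ⟨Fin.elim0, fun g w hw _ => ?_, ?_⟩
    · have h1 : W g = ⊥ := Submodule.finrank_eq_zero.1 (Nat.le_zero.1 (hW g))
      rw [h1] at hw
      exact hw
    · intro p _ i a a' h
      rcases h with h | h
      · exact absurd (Subsingleton.elim a a') h
      · simpa using h
  | succ N ih =>
    intro W _ hW Pr hPr
    have hch : ∀ g, ∃ w : R, w ≠ 0 ∧ (W g ≠ ⊥ → w ∈ W g) := by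
      intro g
      by_cases h : W g = ⊥
      · exact ⟨1, one_ne_zero, fun h' => absurd h h'⟩
      · obtain ⟨w, hw, hw0⟩ := (Submodule.ne_bot_iff _).1 h
        exact ⟨w, hw0, fun _ => hw⟩
    choose w hw0 hwm using hch
    set B : R := ∏ p ∈ Pr, ∏ i, ∏ e, ∏ e',
      (if e ≠ e' then (p.1 • θ i e - p.2 • θ i e') else 1) with hB
    have hB0 : B ≠ 0 := by
      rw [hB, Finset.prod_ne_zero_iff]
      intro p hp
      rw [Finset.prod_ne_zero_iff]
      intro i _
      rw [Finset.prod_ne_zero_iff]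
      intro e _
      rw [Finset.prod_ne_zero_iff]
      intro e' _
      split_ifs with h
      · exact sub_ne_zero.2 (hθ i e e' h _ _ (hPr p hp).1 (hPr p hp).2)
      · exact one_ne_zero
    obtain ⟨φ₀, hφ₀⟩ := exists_hom κ R ((∏ g, w g) * B)
      (mul_ne_zero (Finset.prod_ne_zero_iff.2 (fun g _ => hw0 g)) hB0)
    rw [map_mul] at hφ₀
    have hφ₀w := left_ne_zero_of_mul hφ₀
    have hφ₀B := right_ne_zero_of_mul hφ₀
    rw [map_prod, Finset.prod_ne_zero_iff] at hφ₀w
    have hφ₀' : ∀ g, φ₀ (w g) ≠ 0 := fun g => hφ₀w g (Finset.mem_univ g)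
    have hφ₀B' : ∀ p ∈ Pr, ∀ i e e', e ≠ e' → p.1 * φ₀ (θ i e) ≠ p.2 * φ₀ (θ i e') := by
      intro p hp i e e' hee h
      apply hφ₀B
      rw [hB, map_prod]
      apply Finset.prod_eq_zero hp
      rw [map_prod]
      apply Finset.prod_eq_zero (Finset.mem_univ i)
      rw [map_prod]
      apply Finset.prod_eq_zero (Finset.mem_univ e)
      rw [map_prod]
      apply Finset.prod_eq_zero (Finset.mem_univ e')
      rw [if_pos hee, map_sub, map_smul, map_smul, smul_eq_mul, smul_eq_mul, h, sub_self]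
    set W' : G → Submodule κ R := fun g => W g ⊓ LinearMap.ker φ₀.toLinearMap with hW'
    have hfin : ∀ g, Module.Finite κ (W' g) := fun g => Submodule.finiteDimensional_inf_left _ _
    have hrank : ∀ g, Module.finrank κ (W' g) ≤ N := by
      intro g
      by_cases h : W g = ⊥
      · have : W' g = ⊥ := by rw [hW']; simp [h]
        rw [this, finrank_bot]
        exact Nat.zero_le _
      · have hlt : W' g < W g := by
          refine lt_of_le_of_ne inf_le_left ?_
          intro heq
          have h1 : w g ∈ W' g := by rw [heq]; exact hwm g h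
          rw [hW', Submodule.mem_inf] at h1
          exact hφ₀' g h1.2
        have h2 := Submodule.finrank_lt_finrank_of_lt hlt
        have h3 := hW g
        omega
    set Pr' : Finset (κ × κ) := (Pr ×ˢ (univ : Finset (Dir × E × E))).image
      (fun q => (q.1.1 * φ₀ (θ q.2.1 q.2.2.1), q.1.2 * φ₀ (θ q.2.1 q.2.2.2))) with hPr'
    obtain ⟨φ, hφ, hφ2⟩ := ih W' hrank Pr' (by
      intro p hp
      rw [hPr', Finset.mem_image] at hp
      obtain ⟨⟨p, i, e, e'⟩, hq, rfl⟩ := hp
      rw [Finset.mem_product] at hq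
      exact ⟨mul_ne_zero (hPr p hq.1).1 (hφθ _ _ _), mul_ne_zero (hPr p hq.1).2 (hφθ _ _ _)⟩)
    refine ⟨Fin.cons φ₀ φ, fun g v hv hvan => ?_, ?_⟩
    · apply hφ g v
      · rw [hW', Submodule.mem_inf]
        refine ⟨hv, ?_⟩
        have := hvan 0
        simpa using this
      · intro j
        have := hvan j.succ
        simpa using this
    · intro p hp i a a' h
      rw [Fin.prod_univ_succ, Fin.prod_univ_succ]
      simp only [Fin.cons_zero, Fin.cons_succ]
      have hp' : (p.1 * φ₀ (θ i (a 0)), p.2 * φ₀ (θ i (a' 0))) ∈ Pr' := by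
        rw [hPr', Finset.mem_image]
        exact ⟨(p, i, a 0, a' 0), by rw [Finset.mem_product]; exact ⟨hp, Finset.mem_univ _⟩, rfl⟩
      have h1 := hφ2 _ hp' i (fun j => a j.succ) (fun j => a' j.succ) (by
        by_cases ht : (fun j : Fin N => a j.succ) = (fun j => a' j.succ)
        · right
          by_cases h0 : a 0 = a' 0
          · rcases h with h | h
            · exfalso
              apply h
              funext j
              refine Fin.cases h0 (fun j => congrFun ht j) j
            · simp only [h0]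
              intro h2
              exact h (mul_right_cancel₀ (hφθ φ₀ i (a' 0)) h2)
          · exact hφ₀B' p hp i _ _ h0
        · left; exact ht)
      simp only at h1
      rw [mul_assoc, mul_assoc] at h1
      exact h1

end Pool.Agent.W245
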