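import Mathlib
import Pool.Agent.W245.CubeOver
import Pool.Agent.W245.Mixed

set_option autoImplicit false

/-!
# Mixed cubes and polynomial relations over a finite dimensional space of coefficients
-/

namespace Pool.Agent.W245

open Finset Module Pool.Agent.H297R2

/-- The family `g` is linearly independent over the space `W`. -/
def IndepOver {κ C E : Type*} [CommRing κ] [CommRing C] [Algebra κ C] [Fintype E]
    (W : Submodule κ C) (g : E → C) : Prop :=
  ∀ c : E → C, (∀ e, c e ∈ W) → ∑ e, c e * g e = 0 → ∀ e, c e = 0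

/-- Exponents of one additive and `m` multiplicative variables. -/
abbrev Exps (m D : ℕ) := Option (Fin m) → Fin (D + 1)

/-- The monomials. -/
def mon {C : Type*} [CommRing C] {m D : ℕ} (u : C) (v : Fin m → C) (e : Exps m D) : C :=
  u ^ (e none : ℕ) * ∏ l, v l ^ (e (some l) : ℕ)

/-- The index set of the evaluation determinant. -/
abbrev MIdx (ι : Type*) (m D : ℕ) := ι × Exps m D

/-- The evaluation determinant. -/
noncomputable def mdet {κ ι : Type*} [Field κ] [Fintype ι] {m D : ℕ}
    (t : MIdx ι m D → ι → κ) (z : MIdx ι m D → Option (Fin m) → κ) : κ := by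
  classical
  exact Matrix.det (Matrix.of fun (s j : MIdx ι m D) => t j s.1 * ∏ i, z j i ^ (s.2 i : ℕ))

/-- The coefficient of a character in the evaluation determinant. -/
noncomputable def mcoef {κ ι : Type*} [Field κ] [Fintype ι] {m D : ℕ}
    (t : MIdx ι m D → ι → κ) (χ : MIdx ι m D → Fin m → Fin (D + 1)) (x : MIdx ι m D → κ) : κ := by
  classical
  exact ∑ π : Equiv.Perm (MIdx ι m D), if (fun j l => (π j).2 (some l)) = χ then
    ((Equiv.Perm.sign π : ℤ) : κ) * ∏ j, (t j (π j).1 * x j ^ ((π j).2 none : ℕ)) else 0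

open Classical in
theorem mdet_expand {κ ι : Type*} [Field κ] [Fintype ι] {m D : ℕ}
    (t : MIdx ι m D → ι → κ) (z : MIdx ι m D → Option (Fin m) → κ) :
    mdet t z = ∑ χ : MIdx ι m D → Fin m → Fin (D + 1),
      (∏ j, ∏ l, z j (some l) ^ (χ j l : ℕ)) * mcoef t χ (fun j => z j none) := by
  classical
  unfold mdet mcoef
  rw [Matrix.det_apply']
  simp only [Finset.mul_sum]
  rw [Finset.sum_comm]
  refine Finset.sum_congr rfl fun π _ => ?_
  rw [Finset.sum_eq_single (fun j l => (π j).2 (some l))]
  · rw [if_pos rfl]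
    simp only [Matrix.of_apply, Fintype.prod_option, Finset.prod_mul_distrib]
    ring
  · intro χ _ hχ
    rw [if_neg (fun h => hχ h.symm), mul_zero]
  · intro h
    exact absurd (Finset.mem_univ _) h

theorem mcoef_degLE {κ ι : Type*} [Field κ] [Fintype ι] {m D : ℕ}
    (t : MIdx ι m D → ι → κ) (χ : MIdx ι m D → Fin m → Fin (D + 1)) :
    DegLE (Fintype.card (MIdx ι m D) * D) (mcoef t χ) := by
  classical
  unfold mcoef
  apply DegLE.sum
  intro π _
  by_cases h : (fun j l => (π j).2 (some l)) = χ
  · simp only [h, if_true]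
    apply DegLE.const_mul
    have h := DegLE.prod (univ : Finset (MIdx ι m D)) D
      (fun j (x : MIdx ι m D → κ) => t j (π j).1 * x j ^ ((π j).2 none : ℕ)) (by
        intro j _
        have h1 : DegLE ((π j).2 none : ℕ) (fun x : MIdx ι m D → κ => x j ^ ((π j).2 none : ℕ)) :=
          (DegLE.coord j).pow _
        have h2 : ((π j).2 none : ℕ) ≤ D := by have := ((π j).2 none).2; omega
        exact (h1.const_mul (t j (π j).1)).mono h2)
    rw [Finset.card_univ] at h
    exact h
  · simp only [h, if_false]
    exact DegLE.const _ _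

theorem mcoef_linePoly {κ ι : Type*} [Field κ] [Fintype ι] {m D : ℕ}
    (t : MIdx ι m D → ι → κ) (χ : MIdx ι m D → Fin m → Fin (D + 1)) :
    LinePoly (mcoef t χ) := by
  classical
  unfold mcoef
  apply LinePoly.sum
  intro π _
  by_cases h : (fun j l => (π j).2 (some l)) = χ
  · simp only [h, if_true]
    apply LinePoly.mul (LinePoly.const _)
    apply LinePoly.prod
    intro j _
    exact (LinePoly.const _).mul ((LinePoly.coord j).pow _)
  · simp only [h, if_false]
    exact LinePoly.const _

/-- Exponents as finitely supported functions. -/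
noncomputable def expo {m D : ℕ} (e : Exps m D) : Option (Fin m) →₀ ℕ :=
  Finsupp.equivFunOnFinite.symm (fun i => (e i : ℕ))

theorem expo_apply {m D : ℕ} (e : Exps m D) (i : Option (Fin m)) : expo e i = (e i : ℕ) := rfl

theorem expo_injective {m D : ℕ} : Function.Injective (expo (m := m) (D := D)) := by
  intro e e' h
  funext i
  have := DFunLike.congr_fun h i
  exact Fin.ext this

theorem monomials_indep_mixed {κ A ι : Type*} [Field κ] [CommRing A] [Algebra κ A] [Fintype ι]
    (m D : ℕ) (b : ι → A) (hb : LinearIndependent κ b) (c : MIdx ι m D → κ)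
    (hc : ∑ s : MIdx ι m D, c s • MvPolynomial.monomial (expo s.2) (b s.1) = 0) :
    ∀ s, c s = 0 := by
  classical
  rintro ⟨i, e⟩
  have h2 := congrArg (MvPolynomial.coeff (expo e)) hc
  rw [MvPolynomial.coeff_sum, MvPolynomial.coeff_zero, Fintype.sum_prod_type] at h2
  have h3 : ∀ i' : ι, ∑ e' : Exps m D, MvPolynomial.coeff (expo e)
      (c (i', e') • MvPolynomial.monomial (expo e') (b i')) = c (i', e) • b i' := by
    intro i'
    rw [Finset.sum_eq_single e]
    · rw [MvPolynomial.coeff_smul, MvPolynomial.coeff_monomial, if_pos rfl]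
    · intro e' _ he'
      rw [MvPolynomial.coeff_smul, MvPolynomial.coeff_monomial, if_neg, smul_zero]
      intro h
      exact he' (expo_injective h)
    · intro h
      exact absurd (Finset.mem_univ _) h
  simp only [h3] at h2
  exact (Fintype.linearIndependent_iff.1 hb) (fun i' => c (i', e)) h2 i

/-- Existence of good evaluation points. -/
theorem exists_eval_mixed {κ A ι : Type*} [Field κ] [IsAlgClosed κ] [CommRing A] [IsDomain A]
    [Algebra κ A] [Algebra.FiniteType κ A] [Fintype ι] (m D : ℕ) (t : ι → A)
    (ht : LinearIndependent κ t) {G : Type*} [Fintype G]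
    (w : G → MIdx ι m D → A) (hw : ∀ g, LinearIndependent κ (w g))
    (ω : G → MIdx ι m D → Fin m → A) (hunit : ∀ g i l, IsUnit (ω g i l))
    (hω : ∀ g i (e e' : Fin m → Fin (D + 1)), e ≠ e' → ∀ c c' : κ, c ≠ 0 → c' ≠ 0 →
      c • ∏ l, ω g i l ^ (e l : ℕ) ≠ c' • ∏ l, ω g i l ^ (e' l : ℕ)) :
    ∃ τ : MIdx ι m D → (A →ₐ[κ] κ),
      (∃ z₀, mdet (fun j i => τ j (t i)) z₀ ≠ 0) ∧
      (∀ g, Submodule.span κ (Set.range (fun i j => τ j (w g i))) = ⊤) ∧
      ∀ g i (χ χ' : MIdx ι m D → Fin m → Fin (D + 1)), χ ≠ χ' →
        ∏ j, ∏ l, τ j (ω g i l) ^ (χ j l : ℕ) ≠ ∏ j, ∏ l, τ j (ω g i l) ^ (χ' j l : ℕ) := by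
  classical
  set σ := Option (Fin m) with hσ
  set R := MvPolynomial σ A with hR
  have hfg : Algebra.FiniteType κ R :=
    Algebra.FiniteType.trans (S := A) inferInstance inferInstance
  set N := Fintype.card (MIdx ι m D) with hN
  set fam : Option G → MIdx ι m D → R := fun o s =>
    o.elim (MvPolynomial.monomial (expo s.2) (t s.1)) (fun g => MvPolynomial.C (w g s)) with hfam
  set W : Option G → Submodule κ R := fun o => Submodule.span κ (Set.range (fam o)) with hW
  have hfin : ∀ o, Module.Finite κ (W o) := fun o =>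
    FiniteDimensional.span_of_finite κ (Set.finite_range _)
  set θ : G × MIdx ι m D → (Fin m → Fin (D + 1)) → R := fun p e =>
    MvPolynomial.C (∏ l, ω p.1 p.2 l ^ (e l : ℕ)) with hθ
  have hsmulC : ∀ (c : κ) (a : A), c • (MvPolynomial.C a : R) = MvPolynomial.C (c • a) := by
    intro c a
    rw [MvPolynomial.C_apply, MvPolynomial.C_apply, MvPolynomial.smul_monomial]
  obtain ⟨φ, hφ, hφ2⟩ := exists_points2 κ R (G := Option G) θ (by
      intro p e
      apply IsUnit.map
      rw [IsUnit.prod_univ_iff]
      intro l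
      exact (hunit _ _ _).pow _) (by
      intro p e e' hee c c' hc hc' h
      rw [hθ] at h
      simp only at h
      rw [hsmulC, hsmulC] at h
      exact hω p.1 p.2 e e' hee c c' hc hc' (MvPolynomial.C_injective _ _ h)) N W (fun o => by
    rw [hW]
    exact finrank_range_le_card (fam o)) {(1, 1)} (by
      intro p hp
      rw [Finset.mem_singleton] at hp
      rw [hp]
      exact ⟨one_ne_zero, one_ne_zero⟩)
  have e : Fin N ≃ MIdx ι m D := (Fintype.equivFin _).symm
  -- independence of the families tested at the points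
  have hkey : ∀ o (c : MIdx ι m D → κ), (∀ j, ∑ s, c s * φ (e.symm j) (fam o s) = 0) →
      ∑ s, c s • fam o s = 0 := by
    intro o c hc
    apply hφ o
    · apply Submodule.sum_mem
      intro s _
      exact Submodule.smul_mem _ _ (Submodule.subset_span ⟨s, rfl⟩)
    · intro j
      have := hc (e j)
      rw [Equiv.symm_apply_apply] at this
      rw [map_sum, ← this]
      apply Finset.sum_congr rfl
      intro s _
      rw [map_smul, smul_eq_mul]
  let τ : MIdx ι m D → (A →ₐ[κ] κ) := fun j =>
    (φ (e.symm j)).comp (IsScalarTower.toAlgHom κ A R)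
  have hτ : ∀ j a, τ j a = φ (e.symm j) (MvPolynomial.C a) := fun j a => rfl
  refine ⟨τ, ?_, ?_, ?_⟩
  · refine ⟨fun j i => φ (e.symm j) (MvPolynomial.X i), ?_⟩
    intro hdet
    unfold mdet at hdet
    rw [← Matrix.exists_vecMul_eq_zero_iff] at hdet
    obtain ⟨c, hc0, hc⟩ := hdet
    apply hc0
    funext s
    refine monomials_indep_mixed m D t ht c ?_ s
    apply hkey none c
    intro j
    have h1 := congrFun hc j
    rw [Matrix.vecMul, dotProduct] at h1
    rw [Pi.zero_apply] at h1
    rw [← h1]
    apply Finset.sum_congr rfl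
    intro s _
    rw [hfam]
    simp only [Option.elim_none, Matrix.of_apply]
    rw [MvPolynomial.monomial_eq, map_mul, hτ, Finsupp.prod_fintype _ _ (by simp), map_prod]
    simp only [map_pow, expo_apply]
  · intro g
    have hli : LinearIndependent κ (fun (i : MIdx ι m D) (j : MIdx ι m D) => τ j (w g i)) := by
      rw [Fintype.linearIndependent_iff]
      intro c hc
      have h1 : ∑ s, c s • fam (some g) s = 0 := by
        apply hkey
        intro j
        have h2 := congrFun hc j
        rw [Finset.sum_apply] at h2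
        rw [Pi.zero_apply] at h2
        rw [← h2]
        apply Finset.sum_congr rfl
        intro s _
        rfl
      have h2 : ∑ s, c s • w g s = 0 := by
        have h3 : (MvPolynomial.C (∑ s, c s • w g s) : R) = 0 := by
          rw [← h1, map_sum]
          apply Finset.sum_congr rfl
          intro s _
          rw [← hsmulC]
          rfl
        exact (MvPolynomial.C_eq_zero).1 h3
      exact (Fintype.linearIndependent_iff.1 (hw g)) c h2
    apply hli.span_eq_top_of_card_eq_finrank'
    rw [Module.finrank_fintype_fun_eq_card]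
  · intro g i χ χ' hχ
    have h1 := hφ2 (1, 1) (Finset.mem_singleton_self _) (g, i) (fun j => χ (e j)) (fun j => χ' (e j))
      (Or.inl (by
        intro h
        apply hχ
        funext j
        have := congrFun h (e.symm j)
        simpa using this))
    simp only [one_mul] at h1
    have h2 : ∀ χ : MIdx ι m D → Fin m → Fin (D + 1),
        ∏ j, φ j (θ (g, i) (χ (e j))) = ∏ j, ∏ l, τ j (ω g i l) ^ (χ j l : ℕ) := by
      intro χ
      rw [← e.prod_comp]
      refine Finset.prod_congr rfl fun j _ => ?_
      simp only [hτ, hθ, Equiv.symm_apply_apply, map_prod, map_pow]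
    rw [h2, h2] at h1
    exact h1

end Pool.Agent.W245
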