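import Mathlib
import Pool.Agent.W245.MixedCube

set_option autoImplicit false

/-!
# No mixed cube is entirely exceptional
-/

namespace Pool.Agent.W245

open Finset Module Pool.Agent.H297R2

theorem sum_choice {M I : Type*} [AddCommMonoid M] [Fintype I] [DecidableEq I] {r T : ℕ}
    (e : Fin r ≃ Fin T × I) (η : Fin T → Option I) (f : Fin r → M) :
    ∑ k ∈ univ.filter (fun k => η (e k).1 = some (e k).2), f k =
      ∑ g, (η g).elim 0 (fun i => f (e.symm (g, i))) := by
  rw [Finset.sum_filter, ← e.symm.sum_comp, Fintype.sum_prod_type]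
  apply Finset.sum_congr rfl
  intro g _
  simp only [Equiv.apply_symm_apply]
  rcases hηg : η g with _ | i₀
  · simp
  · rw [Finset.sum_eq_single i₀]
    · simp
    · intro i _ hi
      rw [if_neg]
      intro h
      exact hi (Option.some.inj h).symm
    · intro h; exact absurd (mem_univ _) h

theorem prod_choice {M I : Type*} [CommMonoid M] [Fintype I] [DecidableEq I] {r T : ℕ}
    (e : Fin r ≃ Fin T × I) (η : Fin T → Option I) (f : Fin r → M) :
    ∏ k ∈ univ.filter (fun k => η (e k).1 = some (e k).2), f k =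
      ∏ g, (η g).elim 1 (fun i => f (e.symm (g, i))) := by
  rw [Finset.prod_filter, ← e.symm.prod_comp, Fintype.prod_prod_type]
  apply Finset.prod_congr rfl
  intro g _
  simp only [Equiv.apply_symm_apply]
  rcases hηg : η g with _ | i₀
  · simp
  · rw [Finset.prod_eq_single i₀]
    · simp
    · intro i _ hi
      rw [if_neg]
      intro h
      exact hi (Option.some.inj h).symm
    · intro h; exact absurd (mem_univ _) h

theorem indepOver_of_mdet {κ C ι : Type*} [Field κ] [Field C] [Algebra κ C] [Fintype ι]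
    {m D : ℕ} (A : Subalgebra κ C) (t : ι → A)
    (τ : MIdx ι m D → (A →ₐ[κ] κ)) (u : A) (v : Fin m → A)
    (h : mdet (fun j i => τ j (t i)) (fun j o => o.elim (τ j u) (fun l => τ j (v l))) ≠ 0) :
    IndepOver (Submodule.span κ (Set.range fun i => (t i : C)))
      (mon (D := D) (u : C) (fun l => (v l : C))) := by
  classical
  intro c hcW hc
  have h0 : ∀ e, ∃ a : ι → κ, ∑ i, a i • (t i : C) = c e := fun e =>
    (Submodule.mem_span_range_iff_exists_fun κ).1 (hcW e)
  choose a ha using h0
  have h1 : ∑ s : MIdx ι m D, a s.2 s.1 • (mon u v s.2 * t s.1) = 0 := by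
    apply Subtype.ext
    rw [ZeroMemClass.coe_zero, ← hc]
    push_cast
    rw [Fintype.sum_prod_type_right]
    apply Finset.sum_congr rfl
    intro e _
    rw [← ha e, Finset.sum_mul]
    apply Finset.sum_congr rfl
    intro i _
    unfold mon
    push_cast
    rw [smul_mul_assoc, mul_comm (t i : C)]
  unfold mdet at h
  have h2 := Matrix.eq_zero_of_vecMul_eq_zero h (v := fun s : MIdx ι m D => a s.2 s.1) (by
    funext j
    have h3 := congrArg (τ j) h1
    rw [map_sum, map_zero] at h3
    rw [Pi.zero_apply, ← h3, Matrix.vecMul, dotProduct]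
    apply Finset.sum_congr rfl
    intro s _
    simp only [map_smul, map_mul, Matrix.of_apply, smul_eq_mul]
    unfold mon
    simp only [map_mul, map_pow, map_prod, Fintype.prod_option, Option.elim_none,
      Option.elim_some]
    ring)
  intro e
  rw [← ha e]
  apply Finset.sum_eq_zero
  intro i _
  have := congrFun h2 (i, e)
  simp only [Pi.zero_apply] at this
  rw [this, zero_smul]

/-- **No mixed cube is entirely exceptional**, for a space with a given basis. -/
theorem mixed_cube_basis (κ C : Type*) [Field κ] [IsAlgClosed κ] [CharZero κ] [Field C]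
    [Algebra κ C] (ι : Type*) [Fintype ι] (m D : ℕ) : ∃ r : ℕ, ∀ t : ι → C,
    LinearIndependent κ t → ∀ (u₀ : C) (v₀ : Fin m → C), (∀ l, v₀ l ≠ 0) →
    ∀ (w : Fin r → C) (ω : Fin r → Fin m → C), LinearIndependent κ w → (∀ i l, ω i l ≠ 0) →
    (∀ i (e e' : Fin m → Fin (D + 1)), e ≠ e' → ∀ c c' : κ, c ≠ 0 → c' ≠ 0 →
      c • ∏ l, ω i l ^ (e l : ℕ) ≠ c' • ∏ l, ω i l ^ (e' l : ℕ)) →
    ∃ S : Finset (Fin r), IndepOver (Submodule.span κ (Set.range t))
      (mon (D := D) (u₀ + ∑ i ∈ S, w i) (fun l => v₀ l * ∏ i ∈ S, ω i l)) := by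
  classical
  set I := MIdx ι m D with hI
  set T := Fintype.card (I → Fin m → Fin (D + 1)) * (Fintype.card I * D + 1) with hT
  refine ⟨Fintype.card (Fin T × I), ?_⟩
  intro t ht u₀ v₀ hv₀ w ω hw hω0 hω
  rcases isEmpty_or_nonempty I with hemp | hne
  · refine ⟨∅, ?_⟩
    intro c hc _ e
    have hι : IsEmpty ι := ⟨fun i => hemp.elim (i, e)⟩
    have h1 := hc e
    rw [Set.range_eq_empty, Submodule.span_empty] at h1
    exact (Submodule.mem_bot κ).1 h1
  have e : Fin (Fintype.card (Fin T × I)) ≃ Fin T × I := (Fintype.equivFin _).symm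
  set U : Set C := Set.range t ∪ Set.range w ∪ {u₀} ∪ Set.range v₀ ∪ Set.range (fun l => (v₀ l)⁻¹) ∪
    Set.range (fun p : Fin (Fintype.card (Fin T × I)) × Fin m => ω p.1 p.2) ∪
    Set.range (fun p : Fin (Fintype.card (Fin T × I)) × Fin m => (ω p.1 p.2)⁻¹) with hU
  have hUf : U.Finite := ((((((Set.finite_range _).union (Set.finite_range _)).union
    (Set.finite_singleton _)).union (Set.finite_range _)).union (Set.finite_range _)).union
    (Set.finite_range _)).union (Set.finite_range _)
  set A := Algebra.adjoin κ U with hA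
  have hAfg : Algebra.FiniteType κ A := by
    rw [← Subalgebra.fg_iff_finiteType]
    exact ⟨hUf.toFinset, by simp [hA]⟩
  have htU : ∀ i, t i ∈ U := fun i => by
    simp only [hU, Set.mem_union, Set.mem_range]
    exact Or.inl (Or.inl (Or.inl (Or.inl (Or.inl (Or.inl ⟨i, rfl⟩)))))
  have hwU : ∀ i, w i ∈ U := fun i => by
    simp only [hU, Set.mem_union, Set.mem_range]
    exact Or.inl (Or.inl (Or.inl (Or.inl (Or.inl (Or.inr ⟨i, rfl⟩)))))
  have huU : u₀ ∈ U := by
    simp only [hU, Set.mem_union, Set.mem_singleton_iff]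
    exact Or.inl (Or.inl (Or.inl (Or.inl (Or.inr trivial))))
  have hvU : ∀ l, v₀ l ∈ U := fun l => by
    simp only [hU, Set.mem_union, Set.mem_range]
    exact Or.inl (Or.inl (Or.inl (Or.inr ⟨l, rfl⟩)))
  have hvU' : ∀ l, (v₀ l)⁻¹ ∈ U := fun l => by
    simp only [hU, Set.mem_union, Set.mem_range]
    exact Or.inl (Or.inl (Or.inr ⟨l, rfl⟩))
  have hωU : ∀ i l, ω i l ∈ U := fun i l => by
    simp only [hU, Set.mem_union, Set.mem_range]
    exact Or.inl (Or.inr ⟨(i, l), rfl⟩)
  have hωU' : ∀ i l, (ω i l)⁻¹ ∈ U := fun i l => by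
    simp only [hU, Set.mem_union, Set.mem_range]
    exact Or.inr ⟨(i, l), rfl⟩
  set tA : ι → A := fun i => ⟨t i, Algebra.subset_adjoin (htU i)⟩ with htA
  set wA : Fin (Fintype.card (Fin T × I)) → A := fun i => ⟨w i, Algebra.subset_adjoin (hwU i)⟩ with hwA
  set uA : A := ⟨u₀, Algebra.subset_adjoin huU⟩ with huA
  set vA : Fin m → A := fun l => ⟨v₀ l, Algebra.subset_adjoin (hvU l)⟩ with hvA
  set ωA : Fin (Fintype.card (Fin T × I)) → Fin m → A :=
    fun i l => ⟨ω i l, Algebra.subset_adjoin (hωU i l)⟩ with hωA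
  have hvunit : ∀ l, IsUnit (vA l) := fun l =>
    IsUnit.of_mul_eq_one (⟨(v₀ l)⁻¹, Algebra.subset_adjoin (hvU' l)⟩ : A)
      (Subtype.ext (mul_inv_cancel₀ (hv₀ l)))
  have hωunit : ∀ i l, IsUnit (ωA i l) := fun i l =>
    IsUnit.of_mul_eq_one (⟨(ω i l)⁻¹, Algebra.subset_adjoin (hωU' i l)⟩ : A)
      (Subtype.ext (mul_inv_cancel₀ (hω0 i l)))
  have hlift : ∀ {J : Type _} (f : J → A), LinearIndependent κ (fun i => (f i : C)) →
      LinearIndependent κ f := fun f h => h.of_comp A.val.toLinearMap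
  obtain ⟨τ, ⟨z₀, hz₀⟩, hspan, hchar⟩ := exists_eval_mixed m D tA (hlift tA ht) (G := Fin T)
    (fun g i => wA (e.symm (g, i))) (fun g => hlift _ (hw.comp (fun i => e.symm (g, i)) (fun i j h => by
      have := e.symm.injective h
      exact (Prod.mk.inj this).2))) (fun g i => ωA (e.symm (g, i))) (fun g i l => hωunit _ _) (by
      intro g i f f' hff c c' hc hc' h
      apply hω (e.symm (g, i)) f f' hff c c' hc hc'
      have h1 := congrArg A.val h
      simp only [map_smul, map_prod, map_pow] at h1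
      exact h1)
  -- some coefficient is nonzero
  have hP : ∃ (χ : I → Fin m → Fin (D + 1)) (x : I → κ), mcoef (fun j i => τ j (tA i)) χ x ≠ 0 := by
    by_contra hcon
    push Not at hcon
    apply hz₀
    rw [mdet_expand]
    apply Finset.sum_eq_zero
    intro χ _
    rw [hcon, mul_zero]
  obtain ⟨η, hη⟩ := mixed (V := I → κ) T (fun χ => mcoef (fun j i => τ j (tA i)) χ)
    (fun _ => Fintype.card I * D + 1) (fun χ => mcoef_degLE _ χ) (fun χ => mcoef_linePoly _ χ) hP
    (by rw [Finset.sum_const, smul_eq_mul, Finset.card_univ])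
    (fun g i j => τ j (wA (e.symm (g, i))))
    (fun g i χ => ∏ j, ∏ l, τ j (ωA (e.symm (g, i)) l) ^ (χ j l : ℕ)) hspan (by
      intro g i χ
      rw [Finset.prod_ne_zero_iff]
      intro j _
      rw [Finset.prod_ne_zero_iff]
      intro l _
      exact pow_ne_zero _ ((hωunit _ l).map (τ j)).ne_zero) hchar
    (fun j => τ j uA) (fun χ => ∏ j, ∏ l, τ j (vA l) ^ (χ j l : ℕ)) (by
      intro χ
      rw [Finset.prod_ne_zero_iff]
      intro j _
      rw [Finset.prod_ne_zero_iff]
      intro l _
      exact pow_ne_zero _ ((hvunit l).map (τ j)).ne_zero)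
  set S := univ.filter (fun k => η (e k).1 = some (e k).2) with hS
  refine ⟨S, ?_⟩
  have hfin := indepOver_of_mdet A tA τ (uA + ∑ i ∈ S, wA i) (fun l => vA l * ∏ i ∈ S, ωA i l) (by
    intro h0
    apply hη
    rw [← h0, mdet_expand]
    unfold cubeVal
    refine Finset.sum_congr rfl fun χ _ => ?_
    have hx : (fun j => τ j uA) + ∑ g, (η g).elim 0 (fun i j => τ j (wA (e.symm (g, i)))) =
        fun j => τ j (uA + ∑ i ∈ S, wA i) := by
      funext j
      rw [Pi.add_apply, Finset.sum_apply, map_add, map_sum, hS, sum_choice]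
      congr 1
      refine Finset.sum_congr rfl fun g _ => ?_
      rcases η g with _ | i
      · rfl
      · rfl
    rw [hx]
    congr 1
    have hy : ∀ j l, τ j (vA l * ∏ i ∈ S, ωA i l) =
        τ j (vA l) * ∏ g, (η g).elim 1 (fun i => τ j (ωA (e.symm (g, i)) l)) := by
      intro j l
      rw [map_mul, map_prod, hS, prod_choice]
    simp only [Option.elim_some, hy, mul_pow, Finset.prod_mul_distrib]
    congr 1
    have h3 : ∀ g, (η g).elim 1 (fun i => ∏ j, ∏ l, τ j (ωA (e.symm (g, i)) l) ^ (χ j l : ℕ)) =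
        ∏ j, ∏ l, ((η g).elim 1 (fun i => τ j (ωA (e.symm (g, i)) l))) ^ (χ j l : ℕ) := by
      intro g
      rcases η g with _ | i
      · simp
      · rfl
    simp only [h3]
    rw [Finset.prod_comm]
    refine Finset.prod_congr rfl fun j _ => ?_
    rw [Finset.prod_comm]
    refine Finset.prod_congr rfl fun l _ => ?_
    rw [Finset.prod_pow])
  have hcoe : (fun i => (tA i : C)) = t := rfl
  rw [hcoe] at hfin
  convert hfin using 2
  · push_cast
    rfl
  · funext l
    push_cast
    rfl

end Pool.Agent.W245
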