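import Mathlib
import Pool.Agent.W245.MixedCube2
import Pool.Agent.H297R2.BakerThm
import Pool.Agent.H301R2.SSE.Forms

set_option autoImplicit false

/-!
# Mixed cubes: logarithms and powers
-/

namespace Pool.Agent.W245

open Finset Module Complex Pool.Agent.H297R2

/-- Mixed cubes with a bounded number of bad directions, uniformly in the space. -/
theorem mixed_cube (κ C : Type*) [Field κ] [IsAlgClosed κ] [CharZero κ] [Field C]
    [Algebra κ C] (N m D B : ℕ) : ∃ r : ℕ, ∀ W : Submodule κ C, Module.Finite κ W →
    finrank κ W ≤ N → ∀ (u₀ : C) (v₀ : Fin m → C), (∀ l, v₀ l ≠ 0) →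
    ∀ (w : Fin r → C) (ω : Fin r → Fin m → C), LinearIndependent κ w → (∀ i l, ω i l ≠ 0) →
    ∀ bad : Finset (Fin r), bad.card ≤ B →
    (∀ i, i ∉ bad → ∀ (e e' : Fin m → Fin (D + 1)), e ≠ e' → ∀ c c' : κ, c ≠ 0 → c' ≠ 0 →
      c • ∏ l, ω i l ^ (e l : ℕ) ≠ c' • ∏ l, ω i l ^ (e' l : ℕ)) →
    ∃ S : Finset (Fin r), IndepOver W
      (mon (D := D) (u₀ + ∑ i ∈ S, w i) (fun l => v₀ l * ∏ i ∈ S, ω i l)) := by
  classical
  choose r hr using fun n : ℕ => mixed_cube_basis κ C (Fin n) m D
  refine ⟨∑ n ∈ Finset.range (N + 1), r n + B, ?_⟩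
  intro W hWf hWN u₀ v₀ hv₀ w ω hw hω0 bad hbad hω
  set n := finrank κ W with hn
  have hrn : r n ≤ ∑ n ∈ Finset.range (N + 1), r n :=
    Finset.single_le_sum (f := r) (fun _ _ => Nat.zero_le _) (Finset.mem_range.2 (by omega))
  have hcard : r n ≤ badᶜ.card := by
    rw [Finset.card_compl, Fintype.card_fin]
    omega
  obtain ⟨f⟩ : Nonempty (Fin (r n) ↪ (badᶜ : Finset _)) := by
    apply Function.Embedding.nonempty_of_card_le
    rw [Fintype.card_fin, Fintype.card_coe]
    exact hcard
  set f' : Fin (r n) ↪ Fin (∑ n ∈ Finset.range (N + 1), r n + B) :=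
    f.trans (Function.Embedding.subtype _) with hf'
  have hf'bad : ∀ i, f' i ∉ bad := fun i => Finset.mem_compl.1 (f i).2
  let b : Basis (Fin n) κ W := Module.finBasis κ W
  have hb : LinearIndependent κ (fun i => (b i : C)) :=
    b.linearIndependent.map' W.subtype (Submodule.ker_subtype W)
  have hspan : Submodule.span κ (Set.range (fun i => (b i : C))) = W := by
    have h1 : Set.range (fun i => (b i : C)) = W.subtype '' Set.range b := by
      rw [← Set.range_comp]
      rfl
    rw [h1, Submodule.span_image, b.span_eq, Submodule.map_subtype_top]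
  obtain ⟨S, hS⟩ := hr n (fun i => (b i : C)) hb u₀ v₀ hv₀ (fun i => w (f' i)) (fun i => ω (f' i))
    (hw.comp _ f'.injective) (fun i l => hω0 _ _) (fun i => hω _ (hf'bad i))
  refine ⟨S.map f', ?_⟩
  rw [hspan] at hS
  simp only [Finset.sum_map, Finset.prod_map]
  exact hS

/-- For irrational `γ` at most two of the numbers `exp (γ λ_i)` are algebraic. -/
theorem bad_le_two {ι : Type} [Fintype ι] (γ : ℂ) (hγ : ∀ q : ℚ, γ ≠ (q : ℂ)) (L : ι → ℂ)
    (hlog : ∀ i, IsAlgebraic ℚ (cexp (L i))) (hli : LinearIndependent ℚ L) (bad : Finset ι)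
    (hbad : ∀ i ∈ bad, IsAlgebraic ℚ (cexp (γ * L i))) : bad.card ≤ 2 := by
  classical
  by_contra hcon
  push Not at hcon
  obtain ⟨i, hi, j, hj, k, hk, hij, hik, hjk⟩ := Finset.two_lt_card.1 hcon
  have hL : ∀ i, L i ≠ 0 := fun i => hli.ne_zero i
  by_cases halg : IsAlgebraic ℚ γ
  · -- Gelfond-Schneider
    have hli2 : LinearIndependent ℚ ![L i, γ * L i] := by
      rw [LinearIndependent.pair_iff]
      intro s u hsu
      rw [Rat.smul_def, Rat.smul_def] at hsu
      have h1 : ((s : ℂ) + u * γ) * L i = 0 := by linear_combination hsu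
      have h2 := (mul_eq_zero.1 h1).resolve_right (hL i)
      by_cases hu : u = 0
      · subst hu
        simp only [Rat.cast_zero, zero_mul, add_zero] at h2
        exact ⟨by exact_mod_cast h2, rfl⟩
      · exfalso
        apply hγ (-s / u)
        have hu' : (u : ℂ) ≠ 0 := by exact_mod_cast hu
        push_cast
        field_simp
        linear_combination h2
    have h3 := baker ![L i, γ * L i] (by
      intro a
      fin_cases a
      · exact hlog i
      · exact hbad i hi) hli2 ![γ, -1] (by
      intro a
      fin_cases a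
      · exact halg
      · exact isAlgebraic_one.neg) (by
      rw [Fin.sum_univ_two]
      simp) 1
    simp at h3
  · -- six exponentials
    apply Pool.Agent.H301R2.SSE.strong_six ![1, γ] ![L i, L j, L k]
    · intro a b ha hb hab
      simp only [Matrix.cons_val_zero, Matrix.cons_val_one, mul_one] at hab
      by_cases hb0 : b = 0
      · subst hb0
        simp only [zero_mul, add_zero] at hab
        exact ⟨hab, rfl⟩
      · exfalso
        apply halg
        have h1 : γ = -a * b⁻¹ := by
          field_simp
          linear_combination hab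
        rw [h1]
        exact ha.neg.mul hb.inv
    · intro c hc hsum
      have hinj : Function.Injective ![i, j, k] := by
        intro a b hab
        fin_cases a <;> fin_cases b <;> simp_all
      have hli3 : LinearIndependent ℚ ![L i, L j, L k] := by
        have h1 := hli.comp _ hinj
        convert h1 using 1
        funext a
        fin_cases a <;> rfl
      exact baker ![L i, L j, L k] (by
        intro a
        fin_cases a
        · exact hlog i
        · exact hlog j
        · exact hlog k) hli3 c hc hsum
    · have hmem : ∀ z : ℂ, IsAlgebraic ℚ (cexp z) → z ∈ Pool.Agent.H301R2.SSE.Lt := by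
        intro z hz
        exact Pool.Agent.H301R2.SSE.Lt_log hz
      intro a b
      fin_cases a <;> fin_cases b
      · simpa using hmem _ (hlog i)
      · simpa using hmem _ (hlog j)
      · simpa using hmem _ (hlog k)
      · simpa using hmem _ (hbad i hi)
      · simpa using hmem _ (hbad j hj)
      · simpa using hmem _ (hbad k hk)

end Pool.Agent.W245
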