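import Mathlib
import Pool.Agent.W245.MixedCube3
import Pool.Agent.W245.DensityExt

set_option autoImplicit false

/-!
# Logarithms and powers of almost all integers
-/

namespace Pool.Agent.W245

open Finset Module Complex Pool.Agent.H297R2

/-- `1, β_1, …, β_m` are linearly independent over `ℚ`. -/
def IrrFam {m : ℕ} (β : Fin m → ℂ) : Prop := LinearIndependent ℚ (Fin.cons 1 β : Fin (m + 1) → ℂ)

theorem IrrFam.gamma {m : ℕ} {β : Fin m → ℂ} (hβ : IrrFam β) {D : ℕ} {e e' : Fin m → Fin (D + 1)}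
    (hee : e ≠ e') (q : ℚ) :
    ∑ l, (((e l : ℕ) : ℂ) - ((e' l : ℕ) : ℂ)) * β l ≠ (q : ℂ) := by
  intro h
  apply hee
  have h1 := (Fintype.linearIndependent_iff.1 hβ)
    (Fin.cons (-q) (fun l => ((e l : ℕ) : ℚ) - ((e' l : ℕ) : ℚ))) (by
      rw [Fin.sum_univ_succ]
      simp only [Fin.cons_zero, Fin.cons_succ, Rat.smul_def]
      push_cast
      rw [h]
      ring)
  funext l
  have h2 := h1 l.succ
  rw [Fin.cons_succ, sub_eq_zero] at h2
  exact Fin.ext (by exact_mod_cast h2)

theorem log_cube {r : ℕ} (a : ℕ) (p q : Fin r → ℕ) (ha : 0 < a) (hp : ∀ i, 0 < p i)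
    (hq : ∀ i, 0 < q i) (S : Finset (Fin r)) :
    (Real.log ((a * ∏ i, (if i ∈ S then q i else p i) : ℕ) : ℝ) : ℂ) =
      (Real.log ((a * ∏ i, p i : ℕ) : ℝ) : ℂ) +
        ∑ i ∈ S, ((Real.log (q i) : ℂ) - (Real.log (p i) : ℂ)) := by
  classical
  have hap : (0 : ℝ) < a := by exact_mod_cast ha
  have hpp : ∀ i, (0 : ℝ) < p i := fun i => by exact_mod_cast hp i
  have hqp : ∀ i, (0 : ℝ) < q i := fun i => by exact_mod_cast hq i
  have key : Real.log ((a * ∏ i, (if i ∈ S then q i else p i) : ℕ) : ℝ) =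
      Real.log ((a * ∏ i, p i : ℕ) : ℝ) + ∑ i ∈ S, (Real.log (q i) - Real.log (p i)) := by
    push_cast
    rw [Real.log_mul hap.ne' (Finset.prod_ne_zero_iff.2 (fun i _ => by
      split_ifs
      · exact (hqp i).ne'
      · exact (hpp i).ne')),
      Real.log_mul hap.ne' (Finset.prod_ne_zero_iff.2 (fun i _ => (hpp i).ne')),
      Real.log_prod (fun i _ => by
        split_ifs
        · exact (hqp i).ne'
        · exact (hpp i).ne'), Real.log_prod (fun i _ => (hpp i).ne'), add_assoc]
    congr 1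
    rw [← Finset.sum_filter_add_sum_filter_not univ (fun i => i ∈ S)
      (fun i => Real.log (if i ∈ S then (q i : ℝ) else (p i : ℝ))),
      ← Finset.sum_filter_add_sum_filter_not univ (fun i => i ∈ S) (fun i => Real.log (p i : ℝ))]
    have e1 : univ.filter (fun i => i ∈ S) = S := by ext i; simp
    rw [e1]
    have e2 : ∑ i ∈ S, Real.log (if i ∈ S then (q i : ℝ) else (p i : ℝ)) = ∑ i ∈ S, Real.log (q i : ℝ) := by
      apply Finset.sum_congr rfl
      intro i hi
      rw [if_pos hi]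
    have e3 : ∑ i ∈ univ.filter (fun i => i ∉ S), Real.log (if i ∈ S then (q i : ℝ) else (p i : ℝ)) =
        ∑ i ∈ univ.filter (fun i => i ∉ S), Real.log (p i : ℝ) := by
      apply Finset.sum_congr rfl
      intro i hi
      rw [Finset.mem_filter] at hi
      rw [if_neg hi.2]
    rw [e2, e3, Finset.sum_sub_distrib]
    ring
  rw [key]
  push_cast
  rfl

/-- Differences of logarithms of distinct primes. -/
theorem log_diff_indep {r : ℕ} (p q : Fin r → ℕ) (hp : ∀ i, (p i).Prime) (hq : ∀ i, (q i).Prime)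
    (hinj : Function.Injective (Sum.elim p q)) :
    LinearIndependent (algebraicClosure ℚ ℂ)
      (fun i => (Real.log (q i) : ℂ) - (Real.log (p i) : ℂ)) := by
  classical
  set P : Fin r ⊕ Fin r → ℕ := Sum.elim p q with hPdef
  have hPprime : ∀ i, (P i).Prime := by
    rintro (i | i)
    · exact hp i
    · exact hq i
  have hli := linearIndependent_log_prime P hPprime hinj
  rw [Fintype.linearIndependent_iff]
  intro c hc
  have h1 := baker (fun i => (Real.log (P i) : ℂ)) (by
    intro i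
    rw [← Complex.ofReal_exp, Real.exp_log (by exact_mod_cast (hPprime i).pos)]
    rw [Complex.ofReal_natCast]
    exact isAlgebraic_natCast _) hli (Sum.elim (fun i => -(c i : ℂ)) (fun i => (c i : ℂ))) (by
    rintro (i | i)
    · exact ((mem_algebraicClosure_iff).1 (c i).2).neg
    · exact (mem_algebraicClosure_iff).1 (c i).2) (by
    rw [Fintype.sum_sum_type, ← hc, ← Finset.sum_add_distrib]
    apply Finset.sum_congr rfl
    intro i _
    simp only [Sum.elim_inl, Sum.elim_inr, hPdef]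
    rw [Algebra.smul_def]
    change _ = (c i : ℂ) * _
    ring)
  intro i
  have h2 := h1 (Sum.inr i)
  simp only [Sum.elim_inr] at h2
  exact_mod_cast h2

/-- The family of monomials in `log n` and the powers of `n`. -/
noncomputable def lp {m : ℕ} (D : ℕ) (β : Fin m → ℂ) (n : ℕ) : Exps m D → ℂ :=
  mon (Real.log n : ℂ) (fun l => cexp (β l * (Real.log n : ℂ)))

/-- The one-variable density theorem for logarithms and powers. -/
theorem density_mixed (m N D : ℕ) (ε : ℝ) (hε : 0 < ε) : ∃ x₀ : ℕ, ∀ x ≥ x₀,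
    ∀ β : Fin m → ℂ, IrrFam β → ∀ W : Submodule (algebraicClosure ℚ ℂ) ℂ,
    Module.Finite (algebraicClosure ℚ ℂ) W → finrank (algebraicClosure ℚ ℂ) W ≤ N →
    ∀ A : Finset ℕ, A ⊆ Ioc 0 x → (∀ n ∈ A, ¬ IndepOver W (lp D β n)) →
    (A.card : ℝ) ≤ ε * x := by
  classical
  have hac : IsAlgClosed (algebraicClosure ℚ ℂ) := (algebraicClosure.isAlgClosure ℚ ℂ).isAlgClosed
  obtain ⟨r, hr⟩ := mixed_cube (algebraicClosure ℚ ℂ) ℂ N m D
    (2 * Fintype.card ((Fin m → Fin (D + 1)) × (Fin m → Fin (D + 1))))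
  obtain ⟨x₀, hx₀⟩ := dense_cube r ε hε 0
  refine ⟨x₀, fun x hx β hβ W hWf hWN A hA hbadA => ?_⟩
  by_contra hcon
  push Not at hcon
  obtain ⟨a, p, q, ha, hp, hq, hinj, hcube⟩ := hx₀ x hx A hA hcon.le
  set w : Fin r → ℂ := fun i => (Real.log (q i) : ℂ) - (Real.log (p i) : ℂ) with hw
  have hwli := log_diff_indep p q (fun i => (hp i).1) (fun i => (hq i).1) hinj
  have hwliQ : LinearIndependent ℚ w := hwli.restrict_scalars (by
    intro s u hsu
    simp only [Algebra.smul_def, mul_one] at hsu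
    exact (algebraMap ℚ (algebraicClosure ℚ ℂ)).injective hsu)
  have hpp : ∀ i, (0 : ℝ) < p i := fun i => by exact_mod_cast (hp i).1.pos
  have hqp : ∀ i, (0 : ℝ) < q i := fun i => by exact_mod_cast (hq i).1.pos
  have hwlog : ∀ i, IsAlgebraic ℚ (cexp (w i)) := by
    intro i
    rw [hw]
    simp only
    rw [Complex.exp_sub, ← Complex.ofReal_exp, ← Complex.ofReal_exp, Real.exp_log (hqp i),
      Real.exp_log (hpp i), Complex.ofReal_natCast, Complex.ofReal_natCast, div_eq_mul_inv]
    exact (isAlgebraic_natCast _).mul (isAlgebraic_natCast _).inv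
  set γ : (Fin m → Fin (D + 1)) × (Fin m → Fin (D + 1)) → ℂ :=
    fun f => ∑ l, (((f.1 l : ℕ) : ℂ) - ((f.2 l : ℕ) : ℂ)) * β l with hγ
  set badf : (Fin m → Fin (D + 1)) × (Fin m → Fin (D + 1)) → Finset (Fin r) :=
    fun f => univ.filter (fun i => f.1 ≠ f.2 ∧ IsAlgebraic ℚ (cexp (γ f * w i))) with hbadf
  have hbadf2 : ∀ f, (badf f).card ≤ 2 := by
    intro f
    by_cases hf : f.1 = f.2
    · have : badf f = ∅ := by
        rw [hbadf]
        simp [hf]
      rw [this]
      simp
    · exact bad_le_two (γ f) (fun s => hβ.gamma hf s) w hwlog hwliQ (badf f)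
        (fun i hi => (Finset.mem_filter.1 hi).2.2)
  set bad : Finset (Fin r) := univ.biUnion badf with hbad
  have hbadcard : bad.card ≤ 2 * Fintype.card ((Fin m → Fin (D + 1)) × (Fin m → Fin (D + 1))) := by
    refine Finset.card_biUnion_le.trans ?_
    refine (Finset.sum_le_card_nsmul _ _ 2 (fun f _ => hbadf2 f)).trans ?_
    rw [smul_eq_mul, Finset.card_univ, mul_comm]
  obtain ⟨S, hS⟩ := hr W hWf hWN (Real.log ((a * ∏ i, p i : ℕ) : ℝ) : ℂ)
    (fun l => cexp (β l * (Real.log ((a * ∏ i, p i : ℕ) : ℝ) : ℂ))) (fun l => Complex.exp_ne_zero _)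
    w (fun i l => cexp (β l * w i)) hwli (fun i l => Complex.exp_ne_zero _) bad hbadcard (by
      intro i hi e e' hee c c' hc hc' h
      apply hi
      rw [hbad, Finset.mem_biUnion]
      refine ⟨(e, e'), Finset.mem_univ _, ?_⟩
      rw [hbadf, Finset.mem_filter]
      refine ⟨Finset.mem_univ _, hee, ?_⟩
      have hprod : ∀ f : Fin m → Fin (D + 1), ∏ l, cexp (β l * w i) ^ (f l : ℕ) =
          cexp (∑ l, ((f l : ℕ) : ℂ) * (β l * w i)) := by
        intro f
        rw [Complex.exp_sum]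
        refine Finset.prod_congr rfl fun l _ => ?_
        rw [← Complex.exp_nat_mul]
      rw [hprod, hprod, Algebra.smul_def, Algebra.smul_def] at h
      have hcC : (algebraMap (algebraicClosure ℚ ℂ) ℂ) c ≠ 0 := by
        rw [Ne, FaithfulSMul.algebraMap_eq_zero_iff]
        exact hc
      have h2 : cexp (γ (e, e') * w i) =
          (algebraMap (algebraicClosure ℚ ℂ) ℂ) c' * ((algebraMap (algebraicClosure ℚ ℂ) ℂ) c)⁻¹ := by
        have h3 : γ (e, e') * w i = ∑ l, ((e l : ℕ) : ℂ) * (β l * w i) -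
            ∑ l, ((e' l : ℕ) : ℂ) * (β l * w i) := by
          rw [hγ]
          simp only
          rw [Finset.sum_mul, ← Finset.sum_sub_distrib]
          refine Finset.sum_congr rfl fun l _ => ?_
          ring
        rw [h3, Complex.exp_sub, div_eq_iff (Complex.exp_ne_zero _)]
        have key : ∀ (x y c c' : ℂ), c ≠ 0 → c * x = c' * y → x = c' * c⁻¹ * y := by
          intro x y c c' hc hxy
          field_simp
          linear_combination hxy
        exact key _ _ _ _ hcC h
      rw [h2]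
      exact ((mem_algebraicClosure_iff).1 c'.2).mul ((mem_algebraicClosure_iff).1 c.2).inv)
  apply hbadA _ (hcube S)
  unfold lp
  have hlc := log_cube a p q ha (fun i => (hp i).1.pos) (fun i => (hq i).1.pos) S
  rw [hlc]
  have hv : (fun l => cexp (β l * ((Real.log ((a * ∏ i, p i : ℕ) : ℝ) : ℂ) + ∑ i ∈ S, w i))) =
      fun l => cexp (β l * (Real.log ((a * ∏ i, p i : ℕ) : ℝ) : ℂ)) * ∏ i ∈ S, cexp (β l * w i) := by
    funext l
    rw [mul_add, Complex.exp_add, Finset.mul_sum, Complex.exp_sum]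
  have hS' := hS
  rw [← hv] at hS'
  exact hS'

end Pool.Agent.W245
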