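import Mathlib
import Pool.Agent.W245.MixedDens

set_option autoImplicit false

/-!
# Logarithms and powers of almost all tuples of integers
-/

namespace Pool.Agent.W245

open Finset Module Complex Pool.Agent.H297R2

section Gen

variable {κ C E : Type*} [Field κ] [Field C] [Algebra κ C] [Fintype E]

/-- The products `∏ i, g i (s i)` are linearly independent over `W`. -/
def IndepT (W : Submodule κ C) {k : ℕ} (g : Fin k → E → C) : Prop :=
  ∀ c : (Fin k → E) → C, (∀ s, c s ∈ W) → ∑ s, c s * ∏ i, g i (s i) = 0 → ∀ s, c s = 0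

/-- The space generated by the products of `W` with the family. -/
def famExt (W : Submodule κ C) (g : E → C) : Submodule κ C :=
  W * Submodule.span κ (Set.range g)

theorem famExt_finite (W : Submodule κ C) [Module.Finite κ W] (N : ℕ) (hN : finrank κ W ≤ N)
    (g : E → C) : Module.Finite κ (famExt W g) ∧ finrank κ (famExt W g) ≤ N * Fintype.card E := by
  have h1 : Module.Finite κ (Submodule.span κ (Set.range g)) :=
    FiniteDimensional.span_of_finite κ (Set.finite_range _)
  have h2 : finrank κ (Submodule.span κ (Set.range g)) ≤ Fintype.card E :=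
    finrank_range_le_card _
  unfold famExt
  rw [← Submodule.mulMap_range]
  constructor
  · infer_instance
  · refine (LinearMap.finrank_range_le _).trans ?_
    rw [Module.finrank_tensorProduct]
    exact Nat.mul_le_mul hN h2

theorem IndepT.zero (W : Submodule κ C) (g : Fin 0 → E → C) : IndepT W g := by
  intro c _ h s
  rw [Fintype.sum_unique, Fintype.prod_empty, mul_one] at h
  exact (congrArg c (Subsingleton.elim s _)).trans h

theorem IndepT.cons {W : Submodule κ C} {k : ℕ} {g₀ : E → C} {g : Fin k → E → C}
    (h₀ : IndepOver W g₀) (hg : IndepT (famExt W g₀) g) :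
    IndepT W (Fin.cons g₀ g : Fin (k + 1) → E → C) := by
  intro c hc h s
  have h1 : ∑ s' : Fin k → E, (∑ e : E, c (Fin.cons e s') * g₀ e) * ∏ i, g i (s' i) = 0 := by
    rw [← h, ← (Fin.consEquiv (fun _ : Fin (k + 1) => E)).sum_comp, Fintype.sum_prod_type_right]
    refine Finset.sum_congr rfl fun s' _ => ?_
    rw [Finset.sum_mul]
    refine Finset.sum_congr rfl fun e _ => ?_
    rw [Fin.prod_univ_succ]
    simp only [Fin.consEquiv, Equiv.coe_fn_mk, Fin.cons_zero, Fin.cons_succ]
    ring
  have h2 := hg (fun s' => ∑ e : E, c (Fin.cons e s') * g₀ e) (by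
    intro s'
    apply Submodule.sum_mem
    intro e _
    exact Submodule.mul_mem_mul (hc _) (Submodule.subset_span ⟨e, rfl⟩)) h1
  have h3 := h₀ (fun e => c (Fin.cons e (Fin.tail s))) (fun e => hc _) (h2 (Fin.tail s)) (s 0)
  rw [Fin.cons_self_tail] at h3
  exact h3

end Gen

open Classical in
/-- The uniform density theorem for tuples. -/
theorem density_mixed_tuples (m D k : ℕ) : ∀ (N : ℕ) (ε : ℝ), 0 < ε →
    ∃ x₀ : ℕ, ∀ x ≥ x₀, ∀ β : Fin k → Fin m → ℂ, (∀ i, IrrFam (β i)) →
    ∀ W : Submodule (algebraicClosure ℚ ℂ) ℂ,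
    Module.Finite (algebraicClosure ℚ ℂ) W → finrank (algebraicClosure ℚ ℂ) W ≤ N →
    (((Fintype.piFinset fun _ : Fin k => Ioc 0 x).filter (fun a =>
      ¬ IndepT W (fun i => lp D (β i) (a i)))).card : ℝ) ≤ ε * x ^ k := by
  induction k with
  | zero =>
    intro N ε hε
    refine ⟨0, fun x _ β hβ W hWf hWN => ?_⟩
    rw [Finset.filter_false_of_mem]
    · simp [hε.le]
    · intro n _
      push Not
      exact IndepT.zero _ _
  | succ k ih =>
    intro N ε hε
    obtain ⟨x₁, hx₁⟩ := density_mixed m N D (ε / 2) (by linarith)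
    obtain ⟨x₂, hx₂⟩ := ih (N * Fintype.card (Exps m D)) (ε / 2) (by linarith)
    refine ⟨max x₁ x₂, fun x hx β hβ W hWf hWN => ?_⟩
    set bad : ((Fin (k + 1)) → ℕ) → Prop := fun n => ¬ IndepT W (fun i => lp D (β i) (n i)) with hbad
    set B := (Fintype.piFinset fun _ : Fin (k + 1) => Ioc 0 x).filter bad with hB
    set A := (Ioc 0 x).filter (fun n : ℕ => ¬ IndepOver W (lp D (β 0) n)) with hA
    have hAcard : (A.card : ℝ) ≤ ε / 2 * x :=
      hx₁ x (le_trans (le_max_left _ _) hx) (β 0) (hβ 0) W hWf hWN A (Finset.filter_subset _ _)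
        (fun n hn => (Finset.mem_filter.1 hn).2)
    have hfib : B.card = ∑ a ∈ Ioc 0 x, (B.filter (fun n => n 0 = a)).card := by
      apply Finset.card_eq_sum_card_fiberwise
      intro n hn
      have hn' : n ∈ B := hn
      rw [hB, Finset.mem_filter, Fintype.mem_piFinset] at hn'
      exact hn'.1 0
    have hle : ∀ a, (B.filter (fun n => n 0 = a)).card ≤
        ((Fintype.piFinset fun _ : Fin k => Ioc 0 x).filter (fun m => bad (Fin.cons a m))).card := by
      intro a
      apply Finset.card_le_card_of_injOn (fun n => Fin.tail n)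
      · intro n hn
        have hn' : n ∈ B.filter (fun n => n 0 = a) := hn
        rw [Finset.mem_filter, hB, Finset.mem_filter, Fintype.mem_piFinset] at hn'
        have hcons : (Fin.cons a (Fin.tail n) : Fin (k + 1) → ℕ) = n := by
          rw [← hn'.2]; exact Fin.cons_self_tail n
        show Fin.tail n ∈ _
        rw [Finset.mem_coe, Finset.mem_filter, Fintype.mem_piFinset]
        refine ⟨fun j => hn'.1.1 j.succ, ?_⟩
        rw [hcons]
        exact hn'.1.2
      · intro n hn m hm h
        have hn' : n ∈ B.filter (fun n => n 0 = a) := hn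
        have hm' : m ∈ B.filter (fun n => n 0 = a) := hm
        rw [Finset.mem_filter] at hn' hm'
        rw [← Fin.cons_self_tail n, ← Fin.cons_self_tail m, hn'.2, hm'.2]
        have : Fin.tail n = Fin.tail m := h
        rw [this]
    have hgood : ∀ a ∈ Ioc 0 x, a ∉ A →
        (((Fintype.piFinset fun _ : Fin k => Ioc 0 x).filter (fun m => bad (Fin.cons a m))).card : ℝ) ≤
          ε / 2 * x ^ k := by
      intro a ha haA
      have hta : IndepOver W (lp D (β 0) a) := by
        by_contra hcon
        apply haA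
        rw [hA, Finset.mem_filter]
        exact ⟨ha, hcon⟩
      obtain ⟨hf, hr⟩ := famExt_finite W N hWN (lp D (β 0) a)
      have h1 := hx₂ x (le_trans (le_max_right _ _) hx) (fun i => β i.succ) (fun i => hβ _)
        (famExt W (lp D (β 0) a)) hf hr
      refine le_trans ?_ h1
      have h2 : ((Fintype.piFinset fun _ : Fin k => Ioc 0 x).filter (fun m => bad (Fin.cons a m))).card ≤
          ((Fintype.piFinset fun _ : Fin k => Ioc 0 x).filter (fun n =>
            ¬ IndepT (famExt W (lp D (β 0) a)) (fun i => lp D (β i.succ) (n i)))).card := by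
        apply Finset.card_le_card
        apply Finset.monotone_filter_right
        intro n _ hm hg
        apply hm
        have h3 := IndepT.cons hta hg
        convert h3 using 1
        funext i
        refine Fin.cases ?_ (fun j => ?_) i
        · simp
        · simp
      exact_mod_cast h2
    have htriv : ∀ a, (((Fintype.piFinset fun _ : Fin k => Ioc 0 x).filter (fun m => bad (Fin.cons a m))).card : ℝ) ≤
          (x : ℝ) ^ k := by
      intro a
      have h1 := Finset.card_filter_le (Fintype.piFinset fun _ : Fin k => Ioc 0 x) (fun m => bad (Fin.cons a m))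
      rw [Fintype.card_piFinset] at h1
      simp only [Nat.card_Ioc, Finset.prod_const, Finset.card_univ, Fintype.card_fin] at h1
      have h2 : (((Fintype.piFinset fun _ : Fin k => Ioc 0 x).filter (fun m => bad (Fin.cons a m))).card : ℝ) ≤ (((x - 0) ^ k : ℕ) : ℝ) := by
        exact_mod_cast h1
      simpa using h2
    have hAsub : A ⊆ Ioc 0 x := Finset.filter_subset _ _
    calc (B.card : ℝ) = ∑ a ∈ Ioc 0 x, ((B.filter (fun n => n 0 = a)).card : ℝ) := by
          rw [hfib]; push_cast; rfl
      _ ≤ ∑ a ∈ Ioc 0 x, ((if a ∈ A then (x : ℝ) ^ k else 0) + ε / 2 * x ^ k) := by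
          apply Finset.sum_le_sum
          intro a ha
          have h1 : ((B.filter (fun n => n 0 = a)).card : ℝ) ≤
            (((Fintype.piFinset fun _ : Fin k => Ioc 0 x).filter (fun m => bad (Fin.cons a m))).card : ℝ) := by
            exact_mod_cast hle a
          by_cases haA : a ∈ A
          · rw [if_pos haA]
            have h2 := htriv a
            have h3 : (0 : ℝ) ≤ ε / 2 * x ^ k := by positivity
            linarith
          · rw [if_neg haA, zero_add]
            exact h1.trans (hgood a ha haA)
      _ = (A.card : ℝ) * x ^ k + x * (ε / 2 * x ^ k) := by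
          rw [Finset.sum_add_distrib, ← Finset.sum_filter, Finset.filter_mem_eq_inter,
            Finset.inter_eq_right.2 hAsub, Finset.sum_const, Finset.sum_const, Nat.card_Ioc,
            nsmul_eq_mul, nsmul_eq_mul]
          simp
      _ ≤ (ε / 2 * x) * x ^ k + x * (ε / 2 * x ^ k) := by gcongr
      _ = ε * x ^ (k + 1) := by ring

/-- Exponents of the polynomial ring in `k` additive and `k * m` multiplicative variables. -/
noncomputable def expoT {k m D : ℕ} (s : Fin k → Exps m D) : (Fin k ⊕ Fin k × Fin m) →₀ ℕ :=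
  Finsupp.equivFunOnFinite.symm
    (Sum.elim (fun i => (s i none : ℕ)) (fun p => (s p.1 (some p.2) : ℕ)))

theorem expoT_injective {k m D : ℕ} : Function.Injective (expoT (k := k) (m := m) (D := D)) := by
  intro s s' h
  funext i o
  rcases o with _ | l
  · exact Fin.ext (DFunLike.congr_fun h (Sum.inl i))
  · exact Fin.ext (DFunLike.congr_fun h (Sum.inr (i, l)))

/-- The formulation with polynomials. -/
theorem poly_of_indepT {k m D : ℕ} {W : Submodule (algebraicClosure ℚ ℂ) ℂ} (u : Fin k → ℂ)
    (v : Fin k → Fin m → ℂ) (h : IndepT W (fun i => mon (D := D) (u i) (v i)))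
    (Q : MvPolynomial (Fin k ⊕ Fin k × Fin m) ℂ) (hdeg : ∀ i, Q.degreeOf i ≤ D)
    (hW : ∀ s, Q.coeff s ∈ W)
    (h0 : MvPolynomial.eval (Sum.elim u (fun p => v p.1 p.2)) Q = 0) : Q = 0 := by
  classical
  have hsupp : Q.support ⊆ (univ : Finset (Fin k → Exps m D)).image expoT := by
    intro M hM
    rw [Finset.mem_image]
    refine ⟨fun i o => o.elim
      ⟨M (Sum.inl i), Nat.lt_succ_of_le ((MvPolynomial.degreeOf_le_iff.1 (hdeg (Sum.inl i))) M hM)⟩
      (fun l => ⟨M (Sum.inr (i, l)),
        Nat.lt_succ_of_le ((MvPolynomial.degreeOf_le_iff.1 (hdeg (Sum.inr (i, l)))) M hM)⟩),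
      Finset.mem_univ _, ?_⟩
    ext i
    rcases i with i | p
    · rfl
    · rfl
  have h1 : ∑ s : Fin k → Exps m D, Q.coeff (expoT s) * ∏ i, mon (D := D) (u i) (v i) (s i) = 0 := by
    rw [← h0, MvPolynomial.eval_eq]
    rw [Finset.sum_subset hsupp (by
      intro M _ hM
      rw [MvPolynomial.notMem_support_iff.1 hM, zero_mul])]
    rw [Finset.sum_image (fun a _ b _ h => expoT_injective h)]
    refine Finset.sum_congr rfl fun s _ => ?_
    congr 1
    rw [Finset.prod_subset (Finset.subset_univ (expoT s).support) (by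
      intro i _ hi
      rw [Finsupp.notMem_support_iff.1 hi, pow_zero])]
    rw [Fintype.prod_sum_type, Fintype.prod_prod_type, ← Finset.prod_mul_distrib]
    refine Finset.prod_congr rfl fun i _ => ?_
    rfl
  have h2 := h (fun s => Q.coeff (expoT s)) (fun s => hW _) h1
  ext M
  rw [MvPolynomial.coeff_zero]
  by_cases hM : M ∈ Q.support
  · obtain ⟨s, _, rfl⟩ := Finset.mem_image.1 (hsupp hM)
    exact h2 s
  · exact MvPolynomial.notMem_support_iff.1 hM

end Pool.Agent.W245
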